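import Mathlib
import Pool.Agent.Common_Brouwer.Schauder

/-!
# Solving for unit vectors with prescribed inner products
-/

namespace Pool.Agent.Helper54_Angles

open Set Metric Pool.Agent.Common_Brouwer

/-- Euclidean space. -/
abbrev V (d : ℕ) := EuclideanSpace ℝ (Fin d)

variable {d : ℕ}

lemma inner_eq (x y : V d) : inner ℝ x y = ∑ j, x j * y j := by
  rw [PiLp.inner_apply]
  exact Finset.sum_congr rfl fun j _ => by simp [mul_comm]

/-- The sum of the squares of the coordinates different from `k`. -/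
noncomputable def NN (k : Fin d) (x : Fin d → ℝ) : ℝ := ∑ j ∈ Finset.univ.erase k, x j ^ 2

lemma NN_nonneg (k : Fin d) (x : Fin d → ℝ) : 0 ≤ NN k x :=
  Finset.sum_nonneg fun j _ => sq_nonneg _

/-- The unit vector with prescribed coordinates different from `k`. -/
noncomputable def U (k : Fin d) (s : ℝ) (x : Fin d → ℝ) : V d :=
  WithLp.toLp 2 (Function.update x k (s * Real.sqrt (1 - NN k x)))

lemma U_same (k : Fin d) (s : ℝ) (x : Fin d → ℝ) : U k s x k = s * Real.sqrt (1 - NN k x) := by
  simp [U]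

lemma U_ne {k j : Fin d} (s : ℝ) (x : Fin d → ℝ) (h : j ≠ k) : U k s x j = x j := by
  simp [U, Function.update_of_ne h]

lemma continuous_NN (k : Fin d) : Continuous (NN k) := by
  unfold NN
  fun_prop

lemma continuous_U (k : Fin d) (s : ℝ) : Continuous (U k s) := by
  unfold U
  refine (PiLp.continuous_toLp 2 _).comp ?_
  refine Continuous.update continuous_id k ?_
  exact continuous_const.mul (Real.continuous_sqrt.comp (continuous_const.sub (continuous_NN k)))

lemma norm_U {k : Fin d} {s : ℝ} (hs : s ^ 2 = 1) {x : Fin d → ℝ} (h : NN k x ≤ 1) :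
    ‖U k s x‖ = 1 := by
  rw [EuclideanSpace.norm_eq, Real.sqrt_eq_one]
  rw [← Finset.add_sum_erase _ _ (Finset.mem_univ k), U_same, Real.norm_eq_abs, sq_abs, mul_pow, hs,
    one_mul, Real.sq_sqrt (by linarith)]
  have : ∑ j ∈ Finset.univ.erase k, ‖U k s x j‖ ^ 2 = NN k x := by
    refine Finset.sum_congr rfl fun j hj => ?_
    rw [U_ne s x (Finset.ne_of_mem_erase hj), Real.norm_eq_abs, sq_abs]
  rw [this]
  ring

/-- **Solver.** -/
theorem solve (k : Fin d) (s : ℝ) (a : Fin d → ℝ) {r : ℝ} (hr : 0 ≤ r) (g : Fin d → V d)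
    (t lam : Fin d → ℝ) (hlam : ∀ j, j ≠ k → 0 < lam j)
    (h : ∀ x : Fin d → ℝ, (∀ j, |x j - a j| ≤ r) → ∀ j, j ≠ k →
      |inner ℝ (U k s x) (g j) - t j - lam j * (x j - a j)| ≤ lam j * r) :
    ∃ x : Fin d → ℝ, (∀ j, |x j - a j| ≤ r) ∧ ∀ j, j ≠ k → inner ℝ (U k s x) (g j) = t j := by
  classical
  set f : (Fin d → ℝ) → (Fin d → ℝ) := fun x j =>
    if j = k then a k else x j - (inner ℝ (U k s x) (g j) - t j) / lam j with hf
  have hmem : ∀ x : Fin d → ℝ, x ∈ closedBall a r ↔ ∀ j, |x j - a j| ≤ r := by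
    intro x
    rw [mem_closedBall, dist_pi_le_iff hr]
    simp only [Real.dist_eq]
  have hc : Continuous f := by
    refine continuous_pi fun j => ?_
    by_cases hj : j = k
    · simp only [hf, hj, if_true]; exact continuous_const
    · simp only [hf, hj, if_false]
      refine (continuous_apply j).sub ?_
      exact (((continuous_U k s).inner continuous_const).sub continuous_const).div_const _
  obtain ⟨x, hx, hfx⟩ := schauder (isCompact_closedBall a r) (convex_closedBall a r)
    (nonempty_closedBall.2 hr) hc.continuousOn (f := f) (by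
      intro x hx
      rw [hmem] at hx ⊢
      intro j
      by_cases hj : j = k
      · simp only [hf, hj, if_true, sub_self, abs_zero]; exact hr
      · simp only [hf, hj, if_false]
        have h1 := h x hx j hj
        have h2 := hlam j hj
        have h3 : x j - (inner ℝ (U k s x) (g j) - t j) / lam j - a j =
            -((inner ℝ (U k s x) (g j) - t j - lam j * (x j - a j)) / lam j) := by
          field_simp
          ring
        rw [h3, abs_neg, abs_div, abs_of_pos h2, div_le_iff₀ h2, mul_comm r]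
        exact h1)
  refine ⟨x, (hmem x).1 hx, fun j hj => ?_⟩
  have h1 := congrFun hfx j
  simp only [hf, hj, if_false] at h1
  have h2 := hlam j hj
  have h3 : (inner ℝ (U k s x) (g j) - t j) / lam j = 0 := by linarith
  rcases div_eq_zero_iff.1 h3 with h4 | h4
  · linarith
  · exact absurd h4 h2.ne'

/-- standard basis vectors -/
noncomputable def oo (j : Fin d) : V d := EuclideanSpace.single j 1

lemma oo_apply (j i : Fin d) : oo j i = if i = j then 1 else 0 := by
  simp [oo]

lemma inner_oo (x : V d) (j : Fin d) : inner ℝ x (oo j) = x j := by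
  rw [inner_eq]
  simp [oo_apply]

lemma norm_oo (j : Fin d) : ‖(oo j : V d)‖ = 1 := by simp [oo]

lemma inner_U_oo {k j : Fin d} (s : ℝ) (x : Fin d → ℝ) (h : j ≠ k) :
    inner ℝ (U k s x) (oo j) = x j := by rw [inner_oo, U_ne s x h]

/-- If `|x j| ≤ r` for all `j ≠ k` then `NN k x ≤ d r²`. -/
lemma NN_le {k : Fin d} {x : Fin d → ℝ} {r : ℝ} (h : ∀ j, j ≠ k → |x j| ≤ r) :
    NN k x ≤ d * r ^ 2 := by
  unfold NN
  calc ∑ j ∈ Finset.univ.erase k, x j ^ 2 ≤ ∑ j ∈ Finset.univ.erase k, r ^ 2 := by
        refine Finset.sum_le_sum fun j hj => ?_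
        rw [← sq_abs]
        exact pow_le_pow_left₀ (abs_nonneg _) (h j (Finset.ne_of_mem_erase hj)) 2
    _ ≤ ∑ j : Fin d, r ^ 2 :=
        Finset.sum_le_sum_of_subset_of_nonneg (Finset.erase_subset _ _) fun _ _ _ => sq_nonneg _
    _ = d * r ^ 2 := by simp

lemma one_sub_sqrt {u : ℝ} (h0 : 0 ≤ u) (h1 : u ≤ 1) :
    0 ≤ 1 - Real.sqrt (1 - u) ∧ 1 - Real.sqrt (1 - u) ≤ u := by
  have h2 : 0 ≤ 1 - u := by linarith
  constructor
  · have : Real.sqrt (1 - u) ≤ 1 := by
      rw [Real.sqrt_le_one]
      linarith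
    linarith
  · have : 1 - u ≤ Real.sqrt (1 - u) := by
      conv_lhs => rw [← Real.sq_sqrt h2]
      have h3 : Real.sqrt (1 - u) ≤ 1 := by
        rw [Real.sqrt_le_one]
        linarith
      nlinarith [Real.sqrt_nonneg (1 - u)]
    linarith

end Pool.Agent.Helper54_Angles
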