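import Mathlib
import Pool.Agent.Helper54_Angles.Solver

/-!
# The frame and the auxiliary directions
-/

namespace Pool.Agent.Helper54_Angles

open Set Metric

variable {d : ℕ}

lemma inner_near {k j : Fin d} (hjk : j ≠ k) (s : ℝ) (x : Fin d → ℝ) (g : V d) {lam ζ : ℝ}
    (h : ∀ i, i ≠ k → |g i - (if i = j then lam else 0)| ≤ ζ) :
    |inner ℝ (U k s x) g - s * Real.sqrt (1 - NN k x) * g k - lam * x j| ≤
      ζ * ∑ i ∈ Finset.univ.erase k, |x i| := by
  have h1 : inner ℝ (U k s x) g = s * Real.sqrt (1 - NN k x) * g k +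
      ∑ i ∈ Finset.univ.erase k, x i * g i := by
    rw [inner_eq, ← Finset.add_sum_erase _ _ (Finset.mem_univ k), U_same]
    congr 1
    exact Finset.sum_congr rfl fun i hi => by rw [U_ne s x (Finset.ne_of_mem_erase hi)]
  have h2 : lam * x j = ∑ i ∈ Finset.univ.erase k, x i * (if i = j then lam else 0) := by
    simp [mul_ite, Finset.sum_ite_eq', hjk, mul_comm]
  have h3 : inner ℝ (U k s x) g - s * Real.sqrt (1 - NN k x) * g k - lam * x j =
      ∑ i ∈ Finset.univ.erase k, x i * (g i - (if i = j then lam else 0)) := by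
    rw [h1, h2]
    simp only [mul_sub, Finset.sum_sub_distrib]
    ring
  rw [h3]
  refine (Finset.abs_sum_le_sum_abs _ _).trans ?_
  rw [Finset.mul_sum]
  refine Finset.sum_le_sum fun i hi => ?_
  rw [abs_mul, mul_comm]
  exact mul_le_mul_of_nonneg_right (h i (Finset.ne_of_mem_erase hi)) (abs_nonneg _)

/-- Coordinatewise closeness to a standard basis vector. -/
def Near (ξ : ℝ) (b : V d) (k : Fin d) : Prop := ∀ i, |b i - (if i = k then 1 else 0)| ≤ ξ

lemma near_oo {ξ : ℝ} (hξ : 0 ≤ ξ) (k : Fin d) : Near ξ (oo k : V d) k := by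
  intro i
  rw [oo_apply, sub_self, abs_zero]
  exact hξ

lemma Near.mono {ξ ξ' : ℝ} (h : ξ ≤ ξ') {b : V d} {k : Fin d} (hb : Near ξ b k) : Near ξ' b k :=
  fun i => (hb i).trans h

lemma sum_abs_le {k : Fin d} {x : Fin d → ℝ} {r : ℝ} (hr : 0 ≤ r) (h : ∀ j, j ≠ k → |x j| ≤ r) :
    ∑ i ∈ Finset.univ.erase k, |x i| ≤ d * r := by
  calc ∑ i ∈ Finset.univ.erase k, |x i| ≤ ∑ i ∈ Finset.univ.erase k, r :=
        Finset.sum_le_sum fun j hj => h j (Finset.ne_of_mem_erase hj)
    _ ≤ ∑ i : Fin d, r :=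
        Finset.sum_le_sum_of_subset_of_nonneg (Finset.erase_subset _ _) fun _ _ _ => hr
    _ = d * r := by simp

lemma near_U {k : Fin d} {x : Fin d → ℝ} {r ξ : ℝ} (hr : r ≤ ξ)
    (h : ∀ j, j ≠ k → |x j| ≤ r) (h1 : (d : ℝ) * r ^ 2 ≤ ξ) (h2 : (d : ℝ) * r ^ 2 ≤ 1) :
    Near ξ (U k 1 x) k := by
  intro i
  by_cases hi : i = k
  · subst hi
    rw [U_same, if_pos rfl, one_mul, abs_sub_comm]
    have h3 := one_sub_sqrt (NN_nonneg i x) ((NN_le h).trans h2)
    rw [abs_of_nonneg h3.1]
    exact h3.2.trans ((NN_le h).trans h1)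
  · rw [U_ne _ _ hi, if_neg hi, sub_zero]
    exact (h i hi).trans hr

/-- The frame. -/
theorem frame_aux (k : ℕ) (hk : k ≤ d) : ∀ ξ : ℝ, 0 < ξ → ∃ η : ℝ, 0 < η ∧
    ∀ t : Fin d → Fin d → ℝ, (∀ i j, i < j → |t i j| ≤ η) →
    ∃ b : Fin d → V d, (∀ j, ‖b j‖ = 1) ∧ (∀ j, Near ξ (b j) j) ∧
      (∀ i j, i < j → j.val < k → inner ℝ (b j) (b i) = t i j) ∧
      (∀ j, j.val = 0 → b j = oo j) ∧ ∀ j, k ≤ j.val → b j = oo j := by
  classical
  induction k with
  | zero =>
    intro ξ hξ
    exact ⟨1, one_pos, fun t _ => ⟨fun j => oo j, fun j => norm_oo j, fun j => near_oo hξ.le j,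
      fun i j _ hj => absurd hj (Nat.not_lt_zero _), fun _ _ => rfl, fun _ _ => rfl⟩⟩
  | succ k ih =>
    intro ξ hξ
    by_cases hk0 : k = 0
    · subst hk0
      obtain ⟨η, hη, H⟩ := ih (Nat.zero_le _) ξ hξ
      refine ⟨η, hη, fun t ht => ?_⟩
      obtain ⟨b, h1, h2, h3, h4, h5⟩ := H t ht
      refine ⟨b, h1, h2, fun i j hij hj => ?_, h4, fun j hj => h5 j (by omega)⟩
      have : i.val < j.val := hij
      omega
    · have hkd : k < d := hk
      have hd : (1 : ℝ) ≤ d := by exact_mod_cast (by omega : 1 ≤ d)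
      set r : ℝ := min (ξ / d) (1 / d) with hr
      have hr0 : 0 < r := lt_min (by positivity) (by positivity)
      have hr1 : r ≤ 1 := (min_le_right _ _).trans (by rw [div_le_one (by linarith)]; exact hd)
      have hr2 : r ≤ ξ := (min_le_left _ _).trans (div_le_self hξ.le hd)
      have hdr1 : (d : ℝ) * r ^ 2 ≤ 1 := by
        have : (d : ℝ) * r ≤ 1 := by
          calc (d : ℝ) * r ≤ d * (1 / d) := by gcongr; exact min_le_right _ _
            _ = 1 := by field_simp
        nlinarith
      have hdr2 : (d : ℝ) * r ^ 2 ≤ ξ := by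
        have : (d : ℝ) * r ≤ ξ := by
          calc (d : ℝ) * r ≤ d * (ξ / d) := by gcongr; exact min_le_left _ _
            _ = ξ := by field_simp
        nlinarith
      set ξ' : ℝ := min ξ (r / (2 * (d + 1))) with hξ'
      have hξ'0 : 0 < ξ' := lt_min hξ (by positivity)
      obtain ⟨η₁, hη₁, H⟩ := ih hkd.le ξ' hξ'0
      refine ⟨min η₁ (r / 2), lt_min hη₁ (by positivity), fun t ht => ?_⟩
      obtain ⟨b, h1, h2, h3, h4, h5⟩ := H t fun i j hij => (ht i j hij).trans (min_le_left _ _)
      set K : Fin d := ⟨k, hkd⟩ with hK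
      obtain ⟨x, hx1, hx2⟩ := solve K 1 (fun _ => 0) hr0.le b
        (fun j => if j < K then t j K else 0) (fun _ => 1) (fun _ _ => one_pos) (by
          intro x hx j hj
          simp only [sub_zero] at hx
          have e1 := inner_near hj 1 x (b j) (lam := 1) (ζ := ξ') fun i _ => h2 j i
          have e2 : |1 * Real.sqrt (1 - NN K x) * b j K| ≤ ξ' := by
            rw [abs_mul, one_mul, abs_of_nonneg (Real.sqrt_nonneg _)]
            have e3 : Real.sqrt (1 - NN K x) ≤ 1 := by
              rw [Real.sqrt_le_one]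
              linarith [NN_nonneg K x]
            have e4 := h2 j K
            rw [if_neg hj.symm, sub_zero] at e4
            calc Real.sqrt (1 - NN K x) * |b j K| ≤ 1 * ξ' := by gcongr
              _ = ξ' := one_mul _
          have e5 : |(if j < K then t j K else 0)| ≤ r / 2 := by
            split_ifs with hjK
            · exact (ht j K hjK).trans (min_le_right _ _)
            · rw [abs_zero]; positivity
          have e6 : ξ' * ∑ i ∈ Finset.univ.erase K, |x i| ≤ ξ' * (d * 1) := by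
            gcongr
            exact sum_abs_le zero_le_one fun j _ => (hx j).trans hr1
          have e7 : ξ' * (d + 1) ≤ r / 2 := by
            calc ξ' * (d + 1) ≤ r / (2 * (d + 1)) * (d + 1) := by gcongr; exact min_le_right _ _
              _ = r / 2 := by field_simp
          simp only [sub_zero, one_mul] at e1 e2 ⊢
          rw [abs_le] at *
          constructor <;> nlinarith)
      simp only [sub_zero] at hx1
      refine ⟨Function.update b K (U K 1 x), ?_, ?_, ?_, ?_, ?_⟩
      · intro j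
        by_cases hj : j = K
        · subst hj
          rw [Function.update_self]
          exact norm_U (by norm_num) ((NN_le fun j _ => hx1 j).trans hdr1)
        · rw [Function.update_of_ne hj]
          exact h1 j
      · intro j
        by_cases hj : j = K
        · subst hj
          rw [Function.update_self]
          exact near_U hr2 (fun j _ => hx1 j) hdr2 hdr1
        · rw [Function.update_of_ne hj]
          exact (h2 j).mono (min_le_left _ _)
      · intro i j hij hj
        have hij' : i.val < j.val := hij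
        have hi : i ≠ K := by
          intro h
          have := congrArg Fin.val h
          simp only [hK] at this
          omega
        rw [Function.update_of_ne hi]
        by_cases hj' : j = K
        · subst hj'
          rw [Function.update_self, hx2 i hi, if_pos hij]
        · rw [Function.update_of_ne hj']
          refine h3 i j hij ?_
          have : j.val ≠ k := fun h => hj' (Fin.ext h)
          omega
      · intro j hj
        have : j ≠ K := by
          intro h
          have := congrArg Fin.val h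
          simp only [hK] at this
          omega
        rw [Function.update_of_ne this]
        exact h4 j hj
      · intro j hj
        have : j ≠ K := by
          intro h
          have := congrArg Fin.val h
          simp only [hK] at this
          omega
        rw [Function.update_of_ne this]
        exact h5 j (by omega)

/-- The frame. -/
theorem frame (d : ℕ) {ξ : ℝ} (hξ : 0 < ξ) : ∃ η : ℝ, 0 < η ∧
    ∀ t : Fin d → Fin d → ℝ, (∀ i j, i < j → |t i j| ≤ η) →
    ∃ b : Fin d → V d, (∀ j, ‖b j‖ = 1) ∧ (∀ j, Near ξ (b j) j) ∧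
      (∀ i j, i < j → inner ℝ (b j) (b i) = t i j) ∧ (∀ j, j.val = 0 → b j = oo j) := by
  obtain ⟨η, hη, H⟩ := frame_aux (d := d) d le_rfl ξ hξ
  refine ⟨η, hη, fun t ht => ?_⟩
  obtain ⟨b, h1, h2, h3, h4, -⟩ := H t ht
  exact ⟨b, h1, h2, fun i j hij => h3 i j hij j.2, h4⟩

/-- The directions `e`. -/
theorem exists_e (d : ℕ) {c' ζ : ℝ} (hc0 : 0 ≤ c') (hc : c' < 1) (hζ : 0 < ζ) :
    ∃ ξ : ℝ, 0 < ξ ∧ ∀ b : Fin d → V d, (∀ j, Near ξ (b j) j) → ∀ h i : Fin d, h ≠ i →
    ∀ t : Fin d → ℝ, |t h| ≤ c' → (∀ j, j ≠ h → j ≠ i → |t j| ≤ ξ) →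
    ∃ e : V d, ‖e‖ = 1 ∧ (∀ j, j ≠ i → inner ℝ e (b j) = t j) ∧
      |e h - t h| ≤ ζ ∧ |e i - Real.sqrt (1 - t h ^ 2)| ≤ ζ ∧ ∀ j, j ≠ h → j ≠ i → |e j| ≤ ζ := by
  classical
  by_cases hd0 : d = 0
  · subst hd0
    exact ⟨1, one_pos, fun _ _ h => h.elim0⟩
  have hd : (1 : ℝ) ≤ d := by exact_mod_cast (by omega : 1 ≤ d)
  -- the radius
  obtain ⟨r, hr0, hr1, hr2, hr3⟩ : ∃ r : ℝ, 0 < r ∧ r ≤ 1 ∧ r ≤ ζ ∧
      (3 + (d : ℝ)) * r ≤ min (1 - c' ^ 2) (ζ ^ 2) := by
    have h1 : 0 < min (1 - c' ^ 2) (ζ ^ 2) := lt_min (by nlinarith) (by positivity)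
    refine ⟨min (min 1 ζ) (min (1 - c' ^ 2) (ζ ^ 2) / (3 + d)), ?_, ?_, ?_, ?_⟩
    · exact lt_min (lt_min one_pos hζ) (by positivity)
    · exact (min_le_left _ _).trans (min_le_left _ _)
    · exact (min_le_left _ _).trans (min_le_right _ _)
    · calc (3 + (d : ℝ)) * min (min 1 ζ) (min (1 - c' ^ 2) (ζ ^ 2) / (3 + d)) ≤
          (3 + (d : ℝ)) * (min (1 - c' ^ 2) (ζ ^ 2) / (3 + d)) := by
            gcongr; exact min_le_right _ _
        _ = _ := by field_simp
  refine ⟨r / (2 * (2 * d + 1)), by positivity, fun b hb h i hhi t ht1 ht2 => ?_⟩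
  set ξ : ℝ := r / (2 * (2 * d + 1)) with hξ
  have hξ0 : 0 < ξ := by positivity
  have hξ1 : ξ * (2 * d + 1) = r / 2 := by rw [hξ]; field_simp
  have hξr : ξ ≤ r / 2 := by nlinarith
  set a : Fin d → ℝ := fun j => if j = h then t h else 0 with ha
  have hbd : ∀ x : Fin d → ℝ, (∀ j, |x j - a j| ≤ r) → ∀ j, |x j| ≤ 2 := by
    intro x hx j
    have h1 := hx j
    have h2 : |a j| ≤ 1 := by
      simp only [ha]
      split_ifs
      · linarith
      · simp
    rw [abs_le] at *
    constructor <;> linarith [h1.1, h1.2, h2.1, h2.2]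
  obtain ⟨x, hx1, hx2⟩ := solve i 1 a hr0.le b t (fun _ => 1) (fun _ _ => one_pos) (by
    intro x hx j hj
    have e1 := inner_near hj 1 x (b j) (lam := 1) (ζ := ξ) fun i _ => hb j i
    have e2 : |1 * Real.sqrt (1 - NN i x) * b j i| ≤ ξ := by
      rw [abs_mul, one_mul, abs_of_nonneg (Real.sqrt_nonneg _)]
      have e3 : Real.sqrt (1 - NN i x) ≤ 1 := by
        rw [Real.sqrt_le_one]
        linarith [NN_nonneg i x]
      have e4 := hb j i
      rw [if_neg hj.symm, sub_zero] at e4
      calc Real.sqrt (1 - NN i x) * |b j i| ≤ 1 * ξ := by gcongr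
        _ = ξ := one_mul _
    have e5 : |a j - t j| ≤ r / 2 := by
      simp only [ha]
      split_ifs with hjh
      · subst hjh
        rw [sub_self, abs_zero]; positivity
      · rw [zero_sub, abs_neg]
        exact (ht2 j hjh hj).trans hξr
    have e6 : ξ * ∑ l ∈ Finset.univ.erase i, |x l| ≤ ξ * (d * 2) := by
      gcongr
      exact sum_abs_le zero_le_two fun j _ => hbd x hx j
    simp only [one_mul] at e1 e2 ⊢
    rw [abs_le] at e1 e2 e5 ⊢
    constructor <;> nlinarith)
  -- the estimate for NN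
  have hNN : |NN i x - t h ^ 2| ≤ (3 + d) * r := by
    have e1 : NN i x - t h ^ 2 = ∑ j ∈ Finset.univ.erase i, (x j ^ 2 - a j ^ 2) := by
      unfold NN
      rw [Finset.sum_sub_distrib]
      congr 1
      simp only [ha, ite_pow]
      simp [Finset.sum_ite_eq', hhi]
    have e2 : ∀ j ∈ Finset.univ.erase i, |x j ^ 2 - a j ^ 2| ≤
        r + (if j = h then 3 * r else 0) := by
      intro j hj
      have h1 := hx1 j
      simp only [ha] at h1 ⊢
      split_ifs with hjh
      · subst hjh
        simp only [if_true] at h1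
        have h2 : |t j| ≤ 1 := by linarith
        rw [abs_le] at *
        constructor <;> nlinarith
      · simp only [hjh, if_false, sub_zero] at h1
        rw [abs_le] at *
        constructor <;> nlinarith
    rw [e1]
    refine (Finset.abs_sum_le_sum_abs _ _).trans ((Finset.sum_le_sum e2).trans ?_)
    rw [Finset.sum_add_distrib]
    have e3 : ∑ j ∈ Finset.univ.erase i, (if j = h then 3 * r else 0) = 3 * r := by
      simp [Finset.sum_ite_eq', hhi]
    have e4 : ∑ j ∈ Finset.univ.erase i, r ≤ d * r := by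
      rw [Finset.sum_const, nsmul_eq_mul]
      gcongr
      refine (Finset.card_erase_le).trans ?_
      simp
    rw [e3]
    linarith
  have hth : t h ^ 2 ≤ c' ^ 2 := by
    rw [← sq_abs]
    exact pow_le_pow_left₀ (abs_nonneg _) ht1 2
  have hNN1 : NN i x ≤ 1 := by
    have := (abs_le.1 hNN).2
    have h2 := hr3.trans (min_le_left _ _)
    linarith
  refine ⟨U i 1 x, norm_U (by norm_num) hNN1, hx2, ?_, ?_, ?_⟩
  · rw [U_ne _ _ hhi]
    have := hx1 h
    simp only [ha, if_true] at this
    exact this.trans hr2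
  · rw [U_same, one_mul]
    have h1 : |Real.sqrt (1 - NN i x) - Real.sqrt (1 - t h ^ 2)| ≤
        Real.sqrt |(1 - NN i x) - (1 - t h ^ 2)| := by
      have key : ∀ p q : ℝ, 0 ≤ p → 0 ≤ q → p ≤ q → Real.sqrt q - Real.sqrt p ≤
          Real.sqrt (q - p) := by
        intro p q hp hq hpq
        have h1 := Real.sq_sqrt hp
        have h3 := Real.sq_sqrt (sub_nonneg.2 hpq)
        have h4 : Real.sqrt q ≤ Real.sqrt (q - p) + Real.sqrt p := by
          rw [Real.sqrt_le_left (by positivity)]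
          nlinarith [Real.sqrt_nonneg p, Real.sqrt_nonneg (q - p),
            mul_nonneg (Real.sqrt_nonneg p) (Real.sqrt_nonneg (q - p))]
        linarith
      have hp : 0 ≤ 1 - NN i x := by linarith
      have hq : 0 ≤ 1 - t h ^ 2 := by nlinarith
      rcases le_total (1 - NN i x) (1 - t h ^ 2) with hle | hle
      · rw [abs_sub_comm, abs_of_nonneg (sub_nonneg.2 (Real.sqrt_le_sqrt hle)), abs_sub_comm,
          abs_of_nonneg (sub_nonneg.2 hle)]
        exact key _ _ hp hq hle
      · rw [abs_of_nonneg (sub_nonneg.2 (Real.sqrt_le_sqrt hle)),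
          abs_of_nonneg (sub_nonneg.2 hle)]
        exact key _ _ hq hp hle
    refine h1.trans ?_
    rw [Real.sqrt_le_left hζ.le]
    have h2 : (1 - NN i x) - (1 - t h ^ 2) = -(NN i x - t h ^ 2) := by ring
    rw [h2, abs_neg]
    exact hNN.trans (hr3.trans (min_le_right _ _))
  · intro j hjh hji
    rw [U_ne _ _ hji]
    have := hx1 j
    simp only [ha, hjh, if_false, sub_zero] at this
    exact this.trans hr2

/-- The directions `y`. -/
theorem exists_y (d : ℕ) {σ r0 : ℝ} (hσ : 0 < σ) (hσ1 : σ ≤ 1) (hr0 : 0 < r0) :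
    ∃ ζ : ℝ, 0 < ζ ∧ ∀ (h : Fin d) (μ lam t : Fin d → ℝ) (e : Fin d → V d),
    (∀ j, j ≠ h → σ ≤ lam j) → (∀ j, j ≠ h → |μ j| ≤ 1) → (∀ j, j ≠ h → |μ j + t j| ≤ ζ) →
    (∀ j, j ≠ h → |e j h - μ j| ≤ ζ) → (∀ j, j ≠ h → |e j j - lam j| ≤ ζ) →
    (∀ j, j ≠ h → ∀ i, i ≠ h → i ≠ j → |e j i| ≤ ζ) →
    ∃ y : V d, ‖y‖ = 1 ∧ (∀ j, j ≠ h → inner ℝ y (e j) = t j) ∧ ∀ j, j ≠ h → |y j| ≤ r0 := by
  classical
  by_cases hd0 : d = 0
  · subst hd0
    exact ⟨1, one_pos, fun h => h.elim0⟩
  have hd : (1 : ℝ) ≤ d := by exact_mod_cast (by omega : 1 ≤ d)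
  set r : ℝ := min r0 (σ / (4 * d)) with hr
  have hrpos : 0 < r := lt_min hr0 (by positivity)
  have hdr : (d : ℝ) * r ≤ σ / 4 := by
    calc (d : ℝ) * r ≤ d * (σ / (4 * d)) := by gcongr; exact min_le_right _ _
      _ = σ / 4 := by field_simp
  have hdr2 : (d : ℝ) * r ^ 2 ≤ σ * r / 4 := by nlinarith
  have hr1 : r ≤ 1 := by nlinarith
  refine ⟨σ * r / 8, by positivity, fun h μ lam t e h1 h2 h3 h4 h5 h6 => ?_⟩
  set ζ : ℝ := σ * r / 8 with hζ
  have hζ0 : 0 < ζ := by positivity
  obtain ⟨x, hx1, hx2⟩ := solve h (-1) (fun _ => 0) hrpos.le e t lam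
    (fun j hj => lt_of_lt_of_le hσ (h1 j hj)) (by
      intro x hx j hj
      simp only [sub_zero] at hx ⊢
      have e1 := inner_near hj (-1) x (e j) (lam := lam j) (ζ := ζ) fun i hi => by
        split_ifs with hij
        · subst hij
          exact h5 i hj
        · rw [sub_zero]
          exact h6 j hj i hi hij
      have e6 : ζ * ∑ l ∈ Finset.univ.erase h, |x l| ≤ ζ * (d * r) := by
        gcongr
        exact sum_abs_le hrpos.le fun j _ => hx j
      have hN1 : NN h x ≤ d * r ^ 2 := NN_le fun j _ => hx j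
      have hN2 : NN h x ≤ 1 := by nlinarith
      have hs := one_sub_sqrt (NN_nonneg h x) hN2
      set S := Real.sqrt (1 - NN h x) with hS
      have hS0 : 0 ≤ S := Real.sqrt_nonneg _
      -- |-S * e j h - t j| ≤ ζ + ζ + NN
      have e7 : |-1 * S * e j h - t j| ≤ 2 * ζ + d * r ^ 2 := by
        have a1 := h4 j hj
        have a2 := h3 j hj
        have a3 := h2 j hj
        have a4 : -1 * S * e j h - t j = -(S * (e j h - μ j)) + (1 - S) * μ j - (μ j + t j) := by
          ring
        rw [a4]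
        have a5 : |S * (e j h - μ j)| ≤ ζ := by
          rw [abs_mul, abs_of_nonneg hS0]
          calc S * |e j h - μ j| ≤ 1 * ζ := by
                gcongr
                linarith
            _ = ζ := one_mul _
        have a6 : |(1 - S) * μ j| ≤ d * r ^ 2 := by
          rw [abs_mul, abs_of_nonneg hs.1]
          calc (1 - S) * |μ j| ≤ (d * r ^ 2) * 1 := by
                gcongr
                linarith
            _ = _ := mul_one _
        rw [abs_le] at *
        constructor <;> linarith [a2.1, a2.2, a5.1, a5.2, a6.1, a6.2]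
      have e8 : σ * r ≤ lam j * r := by
        gcongr
        exact h1 j hj
      have e9 : ζ * (d * r) ≤ ζ := by
        have : (d : ℝ) * r ≤ 1 := by linarith
        nlinarith
      rw [abs_le] at e1 e7 ⊢
      constructor <;> nlinarith)
  simp only [sub_zero] at hx1
  refine ⟨U h (-1) x, norm_U (by norm_num) ?_, hx2, fun j hj => ?_⟩
  · have : NN h x ≤ d * r ^ 2 := NN_le fun j _ => hx1 j
    nlinarith
  · rw [U_ne _ _ hj]
    exact (hx1 j).trans (min_le_left _ _)

/-- The twin direction. -/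
theorem exists_w {d : ℕ} {c : Fin d} {b : Fin d → V d}
    (hb : ∀ j, Near (1 / (4 * (d : ℝ))) (b j) j) (hb1 : ∀ j, ‖b j‖ = 1) {δ : ℝ} (hδ : 0 < δ)
    (hδ1 : δ ≤ 1) (t : Fin d → ℝ)
    (ht : ∀ j, j ≠ c → |b j c - t j| ≤ 1 / (20 * (d : ℝ)) * δ) :
    ∃ w : V d, ‖w‖ = 1 ∧ (∀ j, j ≠ c → inner ℝ w (b j) = t j) ∧ Real.cos δ < w c := by
  classical
  have hd : (1 : ℝ) ≤ d := by
    have : 0 < d := lt_of_le_of_lt (Nat.zero_le _) c.2
    exact_mod_cast this
  set cs : ℝ := 1 / (20 * (d : ℝ)) with hcs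
  have hcs0 : 0 < cs := by positivity
  have hcsd : cs * d = 1 / 20 := by rw [hcs]; field_simp
  set r : ℝ := 4 * cs * δ with hr
  have hr0 : 0 < r := by positivity
  have hdr : (d : ℝ) * r = δ / 5 := by rw [hr]; linear_combination 4 * δ * hcsd
  have hdr2 : (d : ℝ) * r ^ 2 ≤ r / 5 := by
    have : (d : ℝ) * r ^ 2 = δ / 5 * r := by rw [← hdr]; ring
    rw [this]
    nlinarith
  have hr1 : r ≤ 1 := by nlinarith
  obtain ⟨x, hx1, hx2⟩ := solve c 1 (fun _ => 0) hr0.le b t (fun _ => 1) (fun _ _ => one_pos) (by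
      intro x hx j hj
      simp only [sub_zero] at hx ⊢
      have e1 := inner_near hj 1 x (b j) (lam := 1) (ζ := 1 / (4 * (d : ℝ))) fun i _ => hb j i
      have e6 : 1 / (4 * (d : ℝ)) * ∑ l ∈ Finset.univ.erase c, |x l| ≤ 1 / (4 * (d : ℝ)) * (d * r) := by
        gcongr
        exact sum_abs_le hr0.le fun j _ => hx j
      have e6' : 1 / (4 * (d : ℝ)) * (d * r) = r / 4 := by field_simp
      have hN1 : NN c x ≤ d * r ^ 2 := NN_le fun j _ => hx j
      have hN2 : NN c x ≤ 1 := by nlinarith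
      have hs := one_sub_sqrt (NN_nonneg c x) hN2
      set S := Real.sqrt (1 - NN c x) with hS
      have e7 : |1 * S * b j c - t j| ≤ r / 4 + r / 5 := by
        have a1 := ht j hj
        have a2 : |b j c| ≤ 1 := by
          have := PiLp.norm_apply_le (b j) c
          rw [hb1, Real.norm_eq_abs] at this
          exact this
        have a4 : 1 * S * b j c - t j = -((1 - S) * b j c) + (b j c - t j) := by ring
        rw [a4]
        have a6 : |(1 - S) * b j c| ≤ r / 5 := by
          rw [abs_mul, abs_of_nonneg hs.1]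
          calc (1 - S) * |b j c| ≤ (r / 5) * 1 := by
                gcongr
                linarith
            _ = _ := mul_one _
        have a7 : cs * δ = r / 4 := by rw [hr]; ring
        rw [a7] at a1
        rw [abs_le] at *
        constructor <;> linarith [a1.1, a1.2, a6.1, a6.2]
      rw [abs_le] at e1 e7 ⊢
      constructor <;> linarith [e1.1, e1.2, e7.1, e7.2])
  simp only [sub_zero] at hx1
  have hN1 : NN c x ≤ d * r ^ 2 := NN_le fun j _ => hx1 j
  have hN2 : NN c x ≤ 1 := by nlinarith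
  refine ⟨U c 1 x, norm_U (by norm_num) hN2, hx2, ?_⟩
  rw [U_same, one_mul]
  have hs := one_sub_sqrt (NN_nonneg c x) hN2
  have hπ := Real.pi_gt_three
  have hπ4 := Real.pi_le_four
  have h1 := Real.cos_le_one_sub_mul_cos_sq (x := δ) (by rw [abs_of_pos hδ]; linarith)
  have h2 : (d : ℝ) * r ^ 2 < 2 / Real.pi ^ 2 * δ ^ 2 := by
    have a1 : (d : ℝ) * r ^ 2 = δ / 5 * r := by rw [← hdr]; ring
    have a2 : r ≤ δ / 5 := by nlinarith
    have a3 : (d : ℝ) * r ^ 2 ≤ δ ^ 2 / 25 := by rw [a1]; nlinarith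
    have a4 : (1 : ℝ) / 25 < 2 / Real.pi ^ 2 := by
      rw [div_lt_div_iff₀ (by norm_num) (by positivity)]
      nlinarith
    have a5 : 0 < δ ^ 2 := by positivity
    nlinarith
  linarith

end Pool.Agent.Helper54_Angles
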