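import Mathlib
import Pool.Agent.Helper54_Angles.Frame

/-!
# Radial positions
-/

namespace Pool.Agent.Helper54_Angles

open Set Metric InnerProductGeometry

variable {d : ℕ}

lemma exists_radius {c u q : V d} (hc : ‖c‖ = 1) (hu : ‖u‖ = 1) (huc : u ≠ c) (hq : q ≠ 0) {ρ : ℝ}
    (h : (angle q (-c) < ρ ∧ ρ < angle q u) ∨ (angle q u < ρ ∧ ρ < angle q (-c))) :
    ∃ r : ℝ, 0 < r ∧ angle q (r • u - c) = ρ := by
  set G : ℝ → ℝ := fun t => angle q (t • u - (1 - t) • c) with hG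
  have hne : ∀ t ∈ Icc (0 : ℝ) 1, t • u - (1 - t) • c ≠ 0 := by
    intro t ht h0
    have h1 : t • u = (1 - t) • c := sub_eq_zero.1 h0
    have h2 := congrArg norm h1
    rw [norm_smul, norm_smul, hu, hc, mul_one, mul_one, Real.norm_eq_abs, Real.norm_eq_abs,
      abs_of_nonneg ht.1, abs_of_nonneg (by linarith [ht.2])] at h2
    have h3 : t = 1 / 2 := by linarith
    have h4 : (1 : ℝ) - t = t := by linarith
    rw [h4] at h1
    have h5 : t ≠ 0 := by rw [h3]; norm_num
    exact huc (smul_right_injective _ h5 h1)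
  have hcont : ContinuousOn G (Icc 0 1) := by
    intro t ht
    have h1 : ContinuousAt (fun y : V d × V d => angle y.1 y.2) (q, t • u - (1 - t) • c) :=
      continuousAt_angle hq (hne t ht)
    have h2 : ContinuousAt (fun t : ℝ => (q, t • u - (1 - t) • c)) t := by fun_prop
    exact (ContinuousAt.comp (f := fun t : ℝ => (q, t • u - (1 - t) • c)) h1 h2).continuousWithinAt
  have hG0 : G 0 = angle q (-c) := by simp [hG]
  have hG1 : G 1 = angle q u := by simp [hG]
  obtain ⟨t, ht, hGt⟩ : ∃ t ∈ Icc (0 : ℝ) 1, G t = ρ := by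
    rcases h with h | h
    · have := intermediate_value_Icc zero_le_one hcont
      exact this ⟨by rw [hG0]; exact h.1.le, by rw [hG1]; exact h.2.le⟩
    · have := intermediate_value_Icc' zero_le_one hcont
      exact this ⟨by rw [hG1]; exact h.1.le, by rw [hG0]; exact h.2.le⟩
  have ht0 : t ≠ 0 := by
    rintro rfl
    rw [hG0] at hGt
    rcases h with h | h <;> linarith [h.1, h.2]
  have ht1 : t ≠ 1 := by
    rintro rfl
    rw [hG1] at hGt
    rcases h with h | h <;> linarith [h.1, h.2]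
  have ht0' : 0 < t := lt_of_le_of_ne ht.1 (Ne.symm ht0)
  have ht1' : 0 < 1 - t := by
    have := lt_of_le_of_ne ht.2 ht1
    linarith
  refine ⟨t / (1 - t), div_pos ht0' ht1', ?_⟩
  rw [← hGt]
  have h1 : t • u - (1 - t) • c = (1 - t) • ((t / (1 - t)) • u - c) := by
    rw [smul_sub, smul_smul]
    congr 2
    field_simp
  simp only [hG]
  rw [h1, angle_smul_right_of_pos _ _ ht1']

lemma angle_unit {x y : V d} (hx : ‖x‖ = 1) (hy : ‖y‖ = 1) {θ : ℝ} (h0 : 0 ≤ θ) (h1 : θ ≤ Real.pi)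
    (h : inner ℝ x y = Real.cos θ) : angle x y = θ := by
  rw [angle, hx, hy, mul_one, div_one, h, Real.arccos_cos h0 h1]

lemma cos_angle_unit {x y : V d} (hx : ‖x‖ = 1) (hy : ‖y‖ = 1) :
    Real.cos (angle x y) = inner ℝ x y := by
  rw [cos_angle, hx, hy, mul_one, div_one]

lemma radial_small {c u : V d} (hc : ‖c‖ = 1) (hu : ‖u‖ = 1) (huc : u ≠ c) {ρ : ℝ}
    (h0 : 0 < ρ) (h1 : ρ < Real.pi) (h : -inner ℝ c u < Real.cos ρ) :
    ∃ r : ℝ, 0 < r ∧ angle (-c) (r • u - c) = ρ := by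
  have hc0 : c ≠ 0 := by
    intro h
    rw [h, norm_zero] at hc
    exact zero_ne_one hc
  refine exists_radius hc hu huc (neg_ne_zero.2 hc0) (Or.inl ⟨?_, ?_⟩)
  · rw [angle_self (neg_ne_zero.2 hc0)]
    exact h0
  · by_contra hlt
    rw [not_lt] at hlt
    have h2 : Real.cos ρ ≤ Real.cos (angle (-c) u) :=
      Real.cos_le_cos_of_nonneg_of_le_pi (angle_nonneg _ _) h1.le hlt
    rw [cos_angle_unit (by rw [norm_neg, hc]) hu, inner_neg_left] at h2
    linarith

lemma radial_large {c u W : V d} (hc : ‖c‖ = 1) (hu : ‖u‖ = 1) (huc : u ≠ c) (hW : W ≠ 0)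
    {ρ δ : ℝ} (h1 : angle (-c) W = Real.pi - δ) (h2 : δ + angle c u < ρ) (h3 : ρ < Real.pi - δ) :
    ∃ r : ℝ, 0 < r ∧ angle W (r • u - c) = ρ := by
  refine exists_radius hc hu huc hW (Or.inr ⟨?_, ?_⟩)
  · have h4 := angle_le_angle_add_angle W c u
    have h5 : angle W c = δ := by
      rw [angle_neg_left] at h1
      rw [angle_comm W c]
      linarith
    linarith
  · rw [angle_comm, h1]
    exact h3

/-- The angle `θ` occurs among the points `p`. -/
def Occurs {P : Type*} (p : P → V d) (θ : ℝ) : Prop :=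
  ∃ a b c, p a ≠ p b ∧ p c ≠ p b ∧ EuclideanGeometry.angle (p a) (p b) (p c) = θ

theorem assemble {Q : Type*} (c w : Q) (u : Q → V d) (hu : ∀ q, ‖u q‖ = 1) {δ : ℝ}
    (hδ0 : 0 < δ) (hδ1 : δ < Real.pi) (hw : u w ≠ u c) (hwδ : Real.cos δ < inner ℝ (u c) (u w))
    (ρ : Q → ℝ) (hρ : ∀ q, q ≠ c → q ≠ w → u q ≠ u c ∧
      ((0 < ρ q ∧ ρ q < Real.pi ∧ -inner ℝ (u c) (u q) < Real.cos (ρ q)) ∨
        (δ + angle (u c) (u q) < ρ q ∧ ρ q < Real.pi - δ) ∨ ρ q = Real.pi - δ)) :
    ∃ p : Option Q → V d, (∀ q q', Occurs p (angle (u q) (u q'))) ∧ Occurs p (Real.pi - δ) ∧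
      ∀ q, q ≠ c → q ≠ w → Occurs p (ρ q) := by
  classical
  have hcw : w ≠ c := fun h => hw (by rw [h])
  obtain ⟨rw₀, hrw0, hrw⟩ := radial_small (hu c) (hu w) hw (ρ := Real.pi - δ) (by linarith)
    (by linarith) (by rw [Real.cos_pi_sub]; linarith)
  set W : V d := rw₀ • u w - u c with hW
  have huc0 : u c ≠ 0 := by
    intro h
    have := hu c
    rw [h, norm_zero] at this
    exact zero_ne_one this
  have hne : ∀ q, u q ≠ u c → ∀ r : ℝ, 0 < r → r • u q ≠ u c := by
    intro q hq r hr h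
    have h1 := congrArg norm h
    rw [norm_smul, hu, hu, mul_one, Real.norm_eq_abs, abs_of_pos hr] at h1
    rw [h1, one_smul] at h
    exact hq h
  have hW0 : W ≠ 0 := sub_ne_zero.2 (hne w hw rw₀ hrw0)
  have H : ∀ q, ∃ r : ℝ, 0 < r ∧ (q = c → r = 1) ∧ (q = w → r = rw₀) ∧ (q ≠ c → q ≠ w →
      angle (-u c) (r • u q - u c) = ρ q ∨ angle W (r • u q - u c) = ρ q ∨
      ρ q = Real.pi - δ) := by
    intro q
    by_cases hqc : q = c
    · exact ⟨1, one_pos, fun _ => rfl, fun h => absurd (h.symm.trans hqc) hcw,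
        fun h => absurd hqc h⟩
    by_cases hqw : q = w
    · exact ⟨rw₀, hrw0, fun h => absurd h hqc, fun _ => rfl, fun _ h => absurd hqw h⟩
    obtain ⟨h1, h2 | h2 | h2⟩ := hρ q hqc hqw
    · obtain ⟨r, hr, h3⟩ := radial_small (hu c) (hu q) h1 h2.1 h2.2.1 h2.2.2
      exact ⟨r, hr, fun h => absurd h hqc, fun h => absurd h hqw, fun _ _ => Or.inl h3⟩
    · obtain ⟨r, hr, h3⟩ := radial_large (hu c) (hu q) h1 hW0 hrw h2.1 h2.2
      exact ⟨r, hr, fun h => absurd h hqc, fun h => absurd h hqw, fun _ _ => Or.inr (Or.inl h3)⟩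
    · exact ⟨1, one_pos, fun h => absurd h hqc, fun h => absurd h hqw,
        fun _ _ => Or.inr (Or.inr h2)⟩
  choose r hr0 hrc hrw' hrq using H
  set p : Option Q → V d := fun o => o.elim 0 fun q => r q • u q with hp
  have hp0 : p none = 0 := rfl
  have hps : ∀ q, p (some q) = r q • u q := fun q => rfl
  have hpc : p (some c) = u c := by rw [hps, hrc c rfl, one_smul]
  have hpw : p (some w) = rw₀ • u w := by rw [hps, hrw' w rfl]
  have hps0 : ∀ q, p (some q) ≠ 0 := by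
    intro q h
    rw [hps, smul_eq_zero] at h
    rcases h with h | h
    · exact (hr0 q).ne' h
    · have := hu q
      rw [h, norm_zero] at this
      exact zero_ne_one this
  have hpqc : ∀ q, u q ≠ u c → p (some q) ≠ p (some c) := by
    intro q hq
    rw [hpc, hps]
    exact hne q hq _ (hr0 q)
  have hmax : Occurs p (Real.pi - δ) := by
    refine ⟨none, some c, some w, ?_, hpqc w hw, ?_⟩
    · rw [hp0, hpc]; exact huc0.symm
    · rw [EuclideanGeometry.angle, hp0, hpc, hpw, vsub_eq_sub, vsub_eq_sub, zero_sub]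
      exact hrw
  refine ⟨p, fun q q' => ⟨some q, none, some q', by rw [hp0]; exact hps0 q,
    by rw [hp0]; exact hps0 q', ?_⟩, hmax, fun q hqc hqw => ?_⟩
  · rw [EuclideanGeometry.angle, hp0, hps, hps, vsub_eq_sub, vsub_eq_sub, sub_zero, sub_zero,
      angle_smul_left_of_pos _ _ (hr0 q), angle_smul_right_of_pos _ _ (hr0 q')]
  · rcases hrq q hqc hqw with h | h | h
    · refine ⟨none, some c, some q, ?_, hpqc q (hρ q hqc hqw).1, ?_⟩
      · rw [hp0, hpc]; exact huc0.symm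
      · rw [EuclideanGeometry.angle, hp0, hpc, hps, vsub_eq_sub, vsub_eq_sub, zero_sub]
        exact h
    · refine ⟨some w, some c, some q, hpqc w hw, hpqc q (hρ q hqc hqw).1, ?_⟩
      rw [EuclideanGeometry.angle, hpw, hpc, hps, vsub_eq_sub, vsub_eq_sub]
      exact h
    · rw [h]
      exact hmax

end Pool.Agent.Helper54_Angles
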