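import Mathlib
import Pool.Agent.Helper54_Angles.Radial

/-!
# The deterministic construction
-/

namespace Pool.Agent.Helper54_Angles

open Set Metric InnerProductGeometry

lemma grid {c' κ : ℝ} (hc : 0 < c') (hκ : 0 < κ) : ∃ (N : ℕ) (uu : Fin N → ℝ) (ω : ℝ), 0 < ω ∧
    (∀ τ, |uu τ| + ω ≤ c') ∧ (∀ τ, 2 * ω ≤ |uu τ|) ∧
    ∀ x : ℝ, |x| ≤ c' → ∃ τ, |x + uu τ| + ω ≤ κ := by
  obtain ⟨n, hn⟩ := exists_nat_gt (c' / κ)
  have hn0 : (0 : ℝ) < n := lt_trans (by positivity) hn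
  have hnpos : 0 < n := by exact_mod_cast hn0
  have hn1 : c' / n ≤ κ := by
    rw [div_le_iff₀ hn0]
    rw [div_lt_iff₀ hκ] at hn
    linarith
  have hcn : 0 < c' / n := by positivity
  have hcn' : c' / n * n = c' := by field_simp
  refine ⟨2 * n, fun τ => c' / n * ((τ : ℝ) - n + 1 / 2), c' / n / 4, by positivity, ?_, ?_, ?_⟩
  · intro τ
    have h1 : (τ : ℝ) + 1 ≤ 2 * n := by exact_mod_cast τ.2
    have h2 : (0 : ℝ) ≤ τ := Nat.cast_nonneg _
    rw [abs_mul, abs_of_pos hcn]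
    have h3 : |(τ : ℝ) - n + 1 / 2| ≤ n - 1 / 2 := by
      rw [abs_le]; constructor <;> linarith
    nlinarith
  · intro τ
    rw [abs_mul, abs_of_pos hcn]
    have h3 : 1 / 2 ≤ |(τ : ℝ) - n + 1 / 2| := by
      rw [le_abs]
      by_cases h : τ.val < n
      · right
        have : (τ : ℝ) + 1 ≤ n := by exact_mod_cast h
        linarith
      · left
        have : (n : ℝ) ≤ τ := by exact_mod_cast not_lt.1 h
        linarith
    nlinarith
  · intro x hx
    rw [abs_le] at hx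
    set s : ℝ := (-x / c' + 1) * n with hs
    have hs0 : 0 ≤ s := by
      have : -1 ≤ -x / c' := by rw [le_div_iff₀ hc]; linarith
      have h2 : 0 ≤ -x / c' + 1 := by linarith
      positivity
    have hs1 : s ≤ 2 * n := by
      have : -x / c' ≤ 1 := by rw [div_le_one hc]; linarith
      nlinarith
    have hxs : x = -(c' / n * (s - n)) := by
      rw [hs]
      field_simp
      ring
    obtain ⟨k, hk, hk1, hk2⟩ : ∃ k : ℕ, k < 2 * n ∧ (k : ℝ) ≤ s ∧ s ≤ k + 1 := by
      by_cases h : ⌊s⌋₊ < 2 * n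
      · exact ⟨⌊s⌋₊, h, Nat.floor_le hs0, (Nat.lt_floor_add_one s).le⟩
      · refine ⟨2 * n - 1, by omega, ?_, ?_⟩
        · have h1 : ((2 * n : ℕ) : ℝ) ≤ s := (Nat.le_floor_iff hs0).1 (not_lt.1 h)
          rw [Nat.cast_sub (by omega)]
          push_cast at h1 ⊢
          linarith
        · rw [Nat.cast_sub (by omega)]
          push_cast
          linarith
    refine ⟨⟨k, hk⟩, ?_⟩
    have h1 : x + c' / n * ((k : ℝ) - n + 1 / 2) = c' / n * (k + 1 / 2 - s) := by
      rw [hxs]; ring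
    simp only
    rw [h1, abs_mul, abs_of_pos hcn]
    have h3 : |(k : ℝ) + 1 / 2 - s| ≤ 1 / 2 := by
      rw [abs_le]; constructor <;> linarith
    nlinarith

/-- The index type of the points. -/
abbrev QQ (d N Y : ℕ) (h : Fin d) := Fin d ⊕ (Unit ⊕ (({i : Fin d // i ≠ h} × Fin N) ⊕ Fin Y))

theorem det {d : ℕ} (hd : 2 ≤ d) {ε c0 : ℝ} (hε : 0 < ε) (hε1 : ε < 1) (hc0 : 0 < c0) :
    ∃ (N : ℕ) (uu : Fin N → ℝ) (ω η δ1 c' : ℝ), 0 < ω ∧ 0 < η ∧ 0 < δ1 ∧ 1 / 2 ≤ c' ∧ c' < 1 ∧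
    (∀ τ, |uu τ| + ω ≤ c') ∧
    ∀ (Y : ℕ) (c h : Fin d) (β : Fin d → Fin d → ℝ) (ψ ρ : Fin d → ℝ)
      (E : Fin d → Fin N → Fin d → ℝ) (G : Fin Y → Fin d → ℝ) (M : ℝ),
      c.val = 0 → h ≠ c → Real.pi - δ1 < M → M < Real.pi →
      (∀ i j, i < j → 0 < β i j ∧ β i j < Real.pi ∧ |Real.cos (β i j)| < η) →
      (∀ j, j ≠ c → 0 < ψ j ∧ ψ j < Real.pi ∧ ψ j ≠ β c j ∧
        |ψ j - β c j| ≤ 1 / (20 * (d : ℝ)) * (Real.pi - M)) →
      (∀ j, j ≠ c → 0 < ρ j ∧ ρ j < Real.pi ∧ 1 / 2 < Real.cos (ρ j)) →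
      (∀ i, i ≠ h → ∀ τ j, 0 < E i τ j ∧ E i τ j < Real.pi) →
      (∀ i, i ≠ h → ∀ τ, |Real.cos (E i τ h) - uu τ| < ω) →
      (∀ i, i ≠ h → ∀ τ j, j ≠ i → j ≠ h → |Real.cos (E i τ j)| < η) →
      (∀ i, i ≠ h → ∀ τ, 1 / 2 < Real.cos (E i τ i)) →
      (∀ y j, 0 < G y j ∧ G y j ≤ M) →
      (∀ y j, j ≠ h → ε ≤ G y j ∧ G y j ≤ Real.pi - ε) →
      (∀ y, c0 < |G y h - Real.pi / 2|) →
      ∃ p : Option (QQ d N Y h) → V d, (∀ i j, i < j → Occurs p (β i j)) ∧
        (∀ j, j ≠ c → Occurs p (ψ j)) ∧ (∀ j, j ≠ c → Occurs p (ρ j)) ∧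
        (∀ i, i ≠ h → ∀ τ j, Occurs p (E i τ j)) ∧ (∀ y j, Occurs p (G y j)) ∧ Occurs p M := by
  classical
  have hπ := Real.pi_gt_three
  have hdR : (2 : ℝ) ≤ d := by exact_mod_cast hd
  -- constants
  have hcosε0 : 0 < Real.cos ε := Real.cos_pos_of_mem_Ioo ⟨by linarith, by linarith⟩
  have hcosε1 : Real.cos ε < 1 := by
    rw [← Real.cos_zero]
    exact Real.cos_lt_cos_of_nonneg_of_le_pi le_rfl (by linarith) hε
  set c' : ℝ := (1 + Real.cos ε) / 2 with hc'
  have hc'0 : 0 < c' := by rw [hc']; linarith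
  have hc'1 : c' < 1 := by rw [hc']; linarith
  have hc'ε : Real.cos ε ≤ c' := by rw [hc']; linarith
  set σ : ℝ := Real.sqrt (1 - c' ^ 2) with hσ
  have hσ0 : 0 < σ := Real.sqrt_pos.2 (by nlinarith)
  have hσ1 : σ ≤ 1 := by rw [hσ, Real.sqrt_le_one]; nlinarith
  obtain ⟨r0, hr0, hr0'⟩ : ∃ r0 : ℝ, 0 < r0 ∧ ∀ x : ℝ, |x| ≤ r0 →
      |Real.arccos x - Real.pi / 2| < c0 / 2 := by
    have h1 : ContinuousAt Real.arccos 0 := Real.continuous_arccos.continuousAt
    rw [Metric.continuousAt_iff] at h1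
    obtain ⟨r, hr, H⟩ := h1 (c0 / 2) (by linarith)
    refine ⟨r / 2, by linarith, fun x hx => ?_⟩
    have := H (x := x) (by rw [Real.dist_eq, sub_zero]; linarith)
    rwa [Real.dist_eq, Real.arccos_zero] at this
  obtain ⟨ζy, hζy, Hy⟩ := exists_y d hσ0 hσ1 (r0 := min r0 (1 / 4)) (lt_min hr0 (by norm_num))
  set ζ : ℝ := min ζy (1 / 4) with hζ
  have hζ0 : 0 < ζ := lt_min hζy (by norm_num)
  obtain ⟨ξe, hξe, He⟩ := exists_e d hc'0.le hc'1 hζ0
  obtain ⟨N, uu, ω, hω, hu1, hu2, hu3⟩ := grid hc'0 hζy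
  set ξ : ℝ := min ξe (1 / (4 * (d : ℝ))) with hξ
  have hξ0 : 0 < ξ := lt_min hξe (by positivity)
  obtain ⟨ηf, hηf, Hf⟩ := frame d hξ0
  set η : ℝ := min (min ηf ξe) ω with hη
  have hη0 : 0 < η := lt_min (lt_min hηf hξe) hω
  have hηf' : η ≤ ηf := (min_le_left _ _).trans (min_le_left _ _)
  have hηe : η ≤ ξe := (min_le_left _ _).trans (min_le_right _ _)
  have hηω : η ≤ ω := min_le_right _ _
  refine ⟨N, uu, ω, η, min 1 (c0 / 2), c', hω, hη0, lt_min one_pos (by linarith),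
    by rw [hc']; linarith, hc'1, hu1, ?_⟩
  intro Y c h β ψ ρ E G M hc hhc hM1 hM2 hβ hψ hρ hE0 hEh hEn hEr hG0 hGm hGr
  set δ : ℝ := Real.pi - M with hδ
  have hδ0 : 0 < δ := by rw [hδ]; linarith
  have hδ1 : δ ≤ 1 := by
    have := min_le_left (1 : ℝ) (c0 / 2)
    rw [hδ]; linarith
  have hδc : δ ≤ c0 / 2 := by
    have := min_le_right (1 : ℝ) (c0 / 2)
    rw [hδ]; linarith
  have hcj : ∀ j : Fin d, j ≠ c → c < j := by
    intro j hj
    have h1 : j.val ≠ c.val := fun h => hj (Fin.ext h)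
    show c.val < j.val
    omega
  -- the frame
  obtain ⟨b, hb1, hb2, hb3, hb4⟩ := Hf (fun i j => Real.cos (β i j))
    fun i j hij => (hβ i j hij).2.2.le.trans hηf'
  have hbc : b c = oo c := hb4 c hc
  have hbcj : ∀ j, j ≠ c → b j c = Real.cos (β c j) := by
    intro j hj
    rw [← inner_oo, ← hbc]
    exact hb3 c j (hcj j hj)
  -- the twin
  obtain ⟨w, hw1, hw2, hw3⟩ := exists_w (c := c) (b := b)
    (fun j => (hb2 j).mono (min_le_right _ _)) hb1 hδ0 hδ1 (fun j => Real.cos (ψ j)) (by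
      intro j hj
      rw [hbcj j hj, abs_sub_comm]
      have h1 := (hψ j hj).2.2.2
      refine le_trans ?_ h1
      exact Real.abs_cos_sub_cos_le _ _)
  have hwc : w ≠ oo c := by
    intro hwc
    have h1 := hw2 h hhc
    rw [hwc, ← hbc, real_inner_comm, hb3 c h (hcj h hhc)] at h1
    have h2 := hψ h hhc
    have h3 := hβ c h (hcj h hhc)
    exact h2.2.2.1 (Real.injOn_cos ⟨h2.1.le, h2.2.1.le⟩ ⟨h3.1.le, h3.2.1.le⟩ h1.symm)
  -- the e's
  have hEc : ∀ i, i ≠ h → ∀ τ, |Real.cos (E i τ h)| ≤ c' := by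
    intro i hi τ
    have h1 := hEh i hi τ
    have h2 := hu1 τ
    have h3 := abs_sub_abs_le_abs_sub (Real.cos (E i τ h)) (uu τ)
    linarith
  have hEω : ∀ i, i ≠ h → ∀ τ, ω < |Real.cos (E i τ h)| := by
    intro i hi τ
    have h1 := hEh i hi τ
    have h2 := hu2 τ
    have h3 := abs_sub_abs_le_abs_sub (uu τ) (Real.cos (E i τ h))
    rw [abs_sub_comm] at h3
    linarith
  have He' : ∀ p : {i : Fin d // i ≠ h} × Fin N, ∃ e : V d, ‖e‖ = 1 ∧
      (∀ j, j ≠ p.1.1 → inner ℝ e (b j) = Real.cos (E p.1 p.2 j)) ∧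
      |e h - Real.cos (E p.1 p.2 h)| ≤ ζ ∧
      |e p.1 - Real.sqrt (1 - Real.cos (E p.1 p.2 h) ^ 2)| ≤ ζ ∧
      ∀ j, j ≠ h → j ≠ p.1.1 → |e j| ≤ ζ := by
    intro p
    exact He b (fun j => (hb2 j).mono (min_le_left _ _)) h p.1 p.1.2.symm
      (fun j => Real.cos (E p.1 p.2 j)) (hEc _ p.1.2 _)
      fun j hjh hji => (hEn p.1 p.1.2 p.2 j hji hjh).le.trans hηe
  choose e he1 he2 he3 he4 he5 using He'
  -- the y's
  have Hy' : ∀ y : Fin Y, ∃ v : V d, ‖v‖ = 1 ∧
      (∀ j, (hj : j ≠ h) → ∃ τ, inner ℝ v (e (⟨j, hj⟩, τ)) = Real.cos (G y j)) ∧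
      ∀ j, j ≠ h → |v j| ≤ min r0 (1 / 4) := by
    intro y
    have h1 : ∀ j, j ≠ h → ∃ τ, |Real.cos (G y j) + uu τ| + ω ≤ ζy := by
      intro j hj
      refine hu3 _ ?_
      have h2 := hGm y j hj
      refine le_trans ?_ hc'ε
      rw [abs_le]
      constructor
      · rw [← Real.cos_pi_sub]
        exact Real.cos_le_cos_of_nonneg_of_le_pi (by linarith) (by linarith) h2.2
      · exact Real.cos_le_cos_of_nonneg_of_le_pi hε.le (by linarith) h2.1
    have hN : Nonempty (Fin N) := by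
      obtain ⟨τ, -⟩ := hu3 0 (by rw [abs_zero]; exact hc'0.le)
      exact ⟨τ⟩
    choose! τ hτ using h1
    obtain ⟨v, hv1, hv2, hv3⟩ := Hy h (fun j => Real.cos (E j (τ j) h))
      (fun j => Real.sqrt (1 - Real.cos (E j (τ j) h) ^ 2)) (fun j => Real.cos (G y j))
      (fun j => if hj : j ≠ h then e (⟨j, hj⟩, τ j) else oo h) (by
        intro j hj
        rw [hσ]
        refine Real.sqrt_le_sqrt ?_
        have h1 := hEc j hj (τ j)
        have h2 : Real.cos (E j (τ j) h) ^ 2 ≤ c' ^ 2 := by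
          rw [← sq_abs]
          exact pow_le_pow_left₀ (abs_nonneg _) h1 2
        linarith) (fun j hj => (hEc j hj (τ j)).trans hc'1.le) (by
        intro j hj
        have h1 := hτ j hj
        have h2 := hEh j hj (τ j)
        have h3 : Real.cos (E j (τ j) h) + Real.cos (G y j) =
            (Real.cos (E j (τ j) h) - uu (τ j)) + (Real.cos (G y j) + uu (τ j)) := by ring
        rw [h3]
        refine (abs_add_le _ _).trans ?_
        linarith) (by
        intro j hj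
        simp only [hj, ne_eq, not_false_eq_true, dif_pos]
        exact (he3 (⟨j, hj⟩, τ j)).trans (min_le_left _ _)) (by
        intro j hj
        simp only [hj, ne_eq, not_false_eq_true, dif_pos]
        exact (he4 (⟨j, hj⟩, τ j)).trans (min_le_left _ _)) (by
        intro j hj i hi hij
        simp only [hj, ne_eq, not_false_eq_true, dif_pos]
        exact (he5 (⟨j, hj⟩, τ j) i hi hij).trans (min_le_left _ _))
    refine ⟨v, hv1, fun j hj => ⟨τ j, ?_⟩, hv3⟩
    have := hv2 j hj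
    simpa only [hj, ne_eq, not_false_eq_true, dif_pos] using this
  choose v hv1 hv2 hv3 using Hy'
  -- the assembly
  set u : QQ d N Y h → V d := Sum.elim b (Sum.elim (fun _ => w) (Sum.elim e v)) with hu
  set R : QQ d N Y h → ℝ := Sum.elim ρ (Sum.elim (fun _ => 0)
    (Sum.elim (fun p => E p.1 p.2 p.1) (fun y => G y h))) with hR
  have hunit : ∀ q, ‖u q‖ = 1 := by
    rintro (j | (_ | (p | y)))
    · exact hb1 j
    · exact hw1
    · exact he1 p
    · exact hv1 y
  have huc : u (Sum.inl c) = oo c := hbc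
  obtain ⟨p, hp1, hp2, hp3⟩ := assemble (Sum.inl c) (Sum.inr (Sum.inl ())) u hunit (δ := δ) hδ0
    (by linarith) (by rw [huc]; exact hwc) (by
      rw [huc, real_inner_comm, inner_oo]
      exact hw3) R (by
      have small : ∀ x : V d, ‖x‖ = 1 → |x c| ≤ 1 / 4 → x ≠ oo c := by
        intro x _ hx2 hx
        rw [hx, oo_apply, if_pos rfl] at hx2
        norm_num at hx2
      rintro (j | (_ | (q | y))) hqc hqw
      · have hj : j ≠ c := fun h => hqc (by rw [h])
        have h1 := hb2 j c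
        rw [if_neg hj.symm, sub_zero] at h1
        have h2 : |b j c| ≤ 1 / 4 := by
          refine h1.trans ((min_le_right _ _).trans ?_)
          rw [div_le_div_iff₀ (by positivity) (by norm_num)]
          linarith
        refine ⟨by rw [huc]; exact small _ (hb1 j) h2, Or.inl ⟨(hρ j hj).1, (hρ j hj).2.1, ?_⟩⟩
        rw [huc, real_inner_comm, inner_oo]
        have h3 := (hρ j hj).2.2
        have h4 := (abs_le.1 h2).1
        show -(b j c) < Real.cos (ρ j)
        linarith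
      · exact absurd rfl hqw
      · have hq := q.1.2
        refine ⟨?_, Or.inl ⟨(hE0 _ hq _ _).1, (hE0 _ hq _ _).2, ?_⟩⟩
        · rw [huc]
          intro hqe
          have h1 := he2 q h hq.symm
          have hqe' : e q = oo c := hqe
          rw [hqe', ← hbc, real_inner_comm, hb3 c h (hcj h hhc)] at h1
          have h2 := hEω _ hq q.2
          have h3 := (hβ c h (hcj h hhc)).2.2
          rw [← h1] at h2
          linarith
        · rw [huc, real_inner_comm, inner_oo]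
          have h3 := hEr _ hq q.2
          show -(e q c) < Real.cos (E q.1 q.2 q.1)
          have h4 : -(1 / 4) ≤ e q c := by
            by_cases hqc' : q.1.1 = c
            · have h5 := he4 q
              have h6 : ζ ≤ 1 / 4 := min_le_right _ _
              have h7 := Real.sqrt_nonneg (1 - Real.cos (E q.1 q.2 h) ^ 2)
              rw [← hqc']
              have h8 := (abs_le.1 h5).1
              linarith
            · have h5 := he5 q c hhc.symm (Ne.symm hqc')
              have h6 : ζ ≤ 1 / 4 := min_le_right _ _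
              have h8 := (abs_le.1 h5).1
              linarith
          linarith
      · have h1 := hv3 y c hhc.symm
        have h2 : |v y c| ≤ 1 / 4 := h1.trans (min_le_right _ _)
        have h3 : |v y c| ≤ r0 := h1.trans (min_le_left _ _)
        refine ⟨by rw [huc]; exact small _ (hv1 y) h2, ?_⟩
        have h4 := hr0' _ h3
        have h5 : angle (oo c) (v y) = Real.arccos (v y c) := by
          rw [angle, norm_oo, hv1 y, mul_one, div_one, real_inner_comm, inner_oo]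
        have h6 := hGr y
        have h7 := hG0 y h
        rw [huc]
        show (0 < G y h ∧ G y h < Real.pi ∧ -inner ℝ (oo c) (v y) < Real.cos (G y h)) ∨
          (δ + angle (oo c) (v y) < G y h ∧ G y h < Real.pi - δ) ∨ G y h = Real.pi - δ
        have h8 : Real.pi - δ = M := by rw [hδ]; ring
        rw [h8]
        rcases h7.2.eq_or_lt with h9 | h9
        · exact Or.inr (Or.inr h9)
        · rcases lt_abs.1 h6 with h10 | h10
          · refine Or.inr (Or.inl ⟨?_, h9⟩)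
            rw [h5]
            have := (abs_lt.1 h4).2
            linarith
          · refine Or.inl ⟨h7.1, by linarith, ?_⟩
            rw [← cos_angle_unit (norm_oo c) (hv1 y), ← Real.cos_pi_sub]
            refine Real.cos_lt_cos_of_nonneg_of_le_pi h7.1.le (by linarith [angle_nonneg (oo c) (v y)]) ?_
            rw [h5]
            have := (abs_lt.1 h4).2
            linarith)
  have ang : ∀ (q q' : QQ d N Y h) (θ : ℝ), 0 < θ → θ < Real.pi →
      inner ℝ (u q) (u q') = Real.cos θ → Occurs p θ := by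
    intro q q' θ h0 h1 h2
    rw [← angle_unit (hunit q) (hunit q') h0.le h1.le h2]
    exact hp1 q q'
  refine ⟨p, ?_, ?_, ?_, ?_, ?_, ?_⟩
  · intro i j hij
    exact ang (Sum.inl j) (Sum.inl i) _ (hβ i j hij).1 (hβ i j hij).2.1 (hb3 i j hij)
  · intro j hj
    exact ang (Sum.inr (Sum.inl ())) (Sum.inl j) _ (hψ j hj).1 (hψ j hj).2.1 (hw2 j hj)
  · intro j hj
    exact hp3 (Sum.inl j) (fun h => hj (Sum.inl_injective h)) Sum.inl_ne_inr
  · intro i hi τ j
    by_cases hji : j = i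
    · subst hji
      exact hp3 (Sum.inr (Sum.inr (Sum.inl (⟨j, hi⟩, τ)))) Sum.inr_ne_inl (by simp)
    · exact ang (Sum.inr (Sum.inr (Sum.inl (⟨i, hi⟩, τ)))) (Sum.inl j) _ (hE0 i hi τ j).1
        (hE0 i hi τ j).2 (he2 (⟨i, hi⟩, τ) j hji)
  · intro y j
    by_cases hjh : j = h
    · subst hjh
      exact hp3 (Sum.inr (Sum.inr (Sum.inr y))) Sum.inr_ne_inl (by simp)
    · obtain ⟨τ, hτ⟩ := hv2 y j hjh
      exact ang (Sum.inr (Sum.inr (Sum.inr y))) (Sum.inr (Sum.inr (Sum.inl (⟨j, hjh⟩, τ)))) _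
        (hG0 y j).1 (by linarith [(hG0 y j).2]) hτ
  · have h8 : Real.pi - δ = M := by rw [hδ]; ring
    rw [← h8]
    exact hp2

end Pool.Agent.Helper54_Angles
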