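import Mathlib
import Pool.Agent.Helper54_Angles.Det

/-!
# Bookkeeping of the indices
-/

namespace Pool.Agent.Helper54_Angles

open Set Metric InnerProductGeometry

lemma card_lt (d : ℕ) : Fintype.card {p : Fin d × Fin d // p.1 < p.2} = d.choose 2 := by
  classical
  rw [Fintype.card_subtype, Finset.card_filter, Fintype.sum_prod_type_right]
  have h1 : ∀ y : Fin d, ∑ x : Fin d, (if x < y then 1 else 0) = y.val := by
    intro y
    rw [← Finset.card_filter]
    have h2 : (Finset.univ.filter fun x : Fin d => x < y) = Finset.Iio y := by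
      ext x
      simp
    rw [h2, Fin.card_Iio]
  rw [Finset.sum_congr rfl fun y _ => h1 y]
  rw [Fin.sum_univ_eq_sum_range (fun i => i) d, Finset.sum_range_id, Nat.choose_two_right]

/-- The special slots. -/
abbrev Sl (d N : ℕ) (c h : Fin d) :=
  {p : Fin d × Fin d // p.1 < p.2} ⊕ ({j : Fin d // j ≠ c} ⊕ ({j : Fin d // j ≠ c} ⊕
    (({i : Fin d // i ≠ h} × Fin N × Fin d) ⊕ Unit)))

lemma card_Sl (d N : ℕ) (c h : Fin d) : Fintype.card (Sl d N c h) =
    d.choose 2 + ((d - 1) + ((d - 1) + ((d - 1) * (N * d) + 1))) := by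
  classical
  simp [Sl, card_lt, Fintype.card_subtype_compl]

lemma card_QQ (d N Y : ℕ) (h : Fin d) : Fintype.card (Option (QQ d N Y h)) =
    d + (1 + ((d - 1) * N + Y)) + 1 := by
  classical
  simp [QQ, Fintype.card_subtype_compl]

/-- Choosing the groups. -/
theorem groups {n d Y : ℕ} (hd : 2 ≤ d) (h : Fin d) (R : Finset (Fin n)) (hR : R.card = d * Y)
    (P Q : Fin n → Prop) (hPQ : ∀ i, P i → Q i)
    [DecidablePred P] [DecidablePred Q]
    (h1 : (R.filter P).card ≤ Y) (h2 : Y ≤ (R.filter Q).card) :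
    ∃ g : Fin Y → Fin d → Fin n, (∀ i ∈ R, ∃ y j, g y j = i) ∧ (∀ y, Q (g y h)) ∧
      ∀ y j, j ≠ h → ¬ P (g y j) := by
  classical
  obtain ⟨Rad, hr1, hr2, hr3⟩ := Finset.exists_subsuperset_card_eq
    (s := R.filter P) (t := R.filter Q) (n := Y) (by
      intro i hi
      rw [Finset.mem_filter] at hi ⊢
      exact ⟨hi.1, hPQ i hi.2⟩) h1 h2
  have hRadR : Rad ⊆ R := hr2.trans (Finset.filter_subset _ _)
  have hrest : (R \ Rad).card = Y * (d - 1) := by
    rw [Finset.card_sdiff_of_subset hRadR, hR, hr3]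
    obtain ⟨e, rfl⟩ : ∃ e, d = e + 1 := ⟨d - 1, by omega⟩
    rw [Nat.add_sub_cancel, Nat.add_mul, one_mul, Nat.add_sub_cancel, Nat.mul_comm]
  have e1 : Fin Y ≃ Rad := (Finset.equivFinOfCardEq hr3).symm
  have e2 : Fin Y × {j : Fin d // j ≠ h} ≃ (R \ Rad : Finset (Fin n)) := by
    refine Fintype.equivOfCardEq ?_
    rw [Fintype.card_coe, hrest]
    simp [Fintype.card_subtype_compl]
  refine ⟨fun y j => if hj : j = h then (e1 y).1 else (e2 (y, ⟨j, hj⟩)).1, ?_, ?_, ?_⟩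
  · intro i hi
    by_cases hiR : i ∈ Rad
    · refine ⟨e1.symm ⟨i, hiR⟩, h, ?_⟩
      simp
    · have hi2 : i ∈ R \ Rad := Finset.mem_sdiff.2 ⟨hi, hiR⟩
      refine ⟨(e2.symm ⟨i, hi2⟩).1, (e2.symm ⟨i, hi2⟩).2.1, ?_⟩
      have h5 : ¬ ((e2.symm ⟨i, hi2⟩).2.1 = h) := (e2.symm ⟨i, hi2⟩).2.2
      simp only [h5, dif_neg, not_false_eq_true]
      simp
  · intro y
    simp only [dif_pos]
    exact (Finset.mem_filter.1 (hr2 (e1 y).2)).2
  · intro y j hj
    simp only [hj, dif_neg, not_false_eq_true]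
    intro hP
    have h3 := Finset.mem_sdiff.1 (e2 (y, ⟨j, hj⟩)).2
    exact h3.2 (hr1 (Finset.mem_filter.2 ⟨h3.1, hP⟩))

/-- The threshold for the number of points. -/
def m₀ (d N : ℕ) : ℕ := d + 2 + (d - 1) * N

theorem count {d N m : ℕ} (hd : 2 ≤ d) (c h : Fin d) (hm : m₀ d N ≤ m) :
    d * m - (d + 1).choose 2 - 1 = Fintype.card (Sl d N c h) + d * (m - m₀ d N) := by
  obtain ⟨Y, rfl⟩ := Nat.exists_eq_add_of_le hm
  obtain ⟨e, rfl⟩ : ∃ e, d = e + 2 := ⟨d - 2, by omega⟩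
  rw [card_Sl, m₀, Nat.add_sub_cancel_left, Nat.choose_succ_succ (e + 2) 1, Nat.choose_one_right]
  have h1 : (e + 2) * (e + 2) = 2 * (e + 2).choose 2 + (e + 2) := by
    have h2 := Nat.choose_two_right (e + 2)
    have h3 : 2 * ((e + 2) * (e + 2 - 1) / 2) = (e + 2) * (e + 2 - 1) :=
      Nat.mul_div_cancel' (Nat.even_mul_pred_self (e + 2)).two_dvd
    rw [h2, h3]
    simp only [show e + 2 - 1 = e + 1 from rfl]
    ring
  have h4 : (e + 2) * (e + 2 + 2 + (e + 2 - 1) * N + Y) = (e + 2) * (e + 2) + 2 * (e + 2) +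
      (e + 1) * (N * (e + 2)) + (e + 2) * Y := by
    simp only [show e + 2 - 1 = e + 1 from rfl]
    ring
  rw [h4, h1]
  simp only [show e + 2 - 1 = e + 1 from rfl, show Nat.succ 1 = 2 from rfl]
  omega

/-- The deterministic statement proved by the construction. -/
def FinProp (d N : ℕ) (uu : Fin N → ℝ) (ω η δ1 ε c0 : ℝ) : Prop :=
    ∀ (m n : ℕ) (c h : Fin d) (θ : Fin n → ℝ) (σβ : {p : Fin d × Fin d // p.1 < p.2} → Fin n)
      (σψ σρ : {j : Fin d // j ≠ c} → Fin n) (σE : {i : Fin d // i ≠ h} × Fin N × Fin d → Fin n)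
      (imax : Fin n),
      n = d * m - (d + 1).choose 2 - 1 → m₀ d N ≤ m → 2 * Fintype.card (Sl d N c h) ≤ n →
      Function.Injective (Sum.elim σβ (Sum.elim σψ (Sum.elim σρ (Sum.elim σE
        (fun _ : Unit => imax))))) →
      (c.val = 0) → h ≠ c → (∀ i, 0 < θ i ∧ θ i ≤ θ imax) → Real.pi - δ1 < θ imax →
      θ imax < Real.pi →
      (∀ p, |Real.cos (θ (σβ p))| < η) →
      (∀ j : {j : Fin d // j ≠ c}, ∀ hj : c < j.1, θ (σψ j) ≠ θ (σβ ⟨(c, j.1), hj⟩) ∧
        |θ (σψ j) - θ (σβ ⟨(c, j.1), hj⟩)| ≤ 1 / (20 * (d : ℝ)) * (Real.pi - θ imax)) →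
      (∀ j, 1 / 2 < Real.cos (θ (σρ j))) →
      (∀ i τ, |Real.cos (θ (σE (i, τ, h))) - uu τ| < ω) →
      (∀ i τ j, j ≠ i.1 → j ≠ h → |Real.cos (θ (σE (i, τ, j)))| < η) →
      (∀ i τ, 1 / 2 < Real.cos (θ (σE (i, τ, i.1)))) →
      (((Finset.univ.filter fun i => θ i ∈ (Icc ε (Real.pi - ε))ᶜ).card : ℝ) < n / (4 * d)) →
      (((Finset.univ.filter fun i => θ i ∈ Icc (Real.pi / 2 - c0) (Real.pi / 2 + c0)).card : ℝ) <
        n / 4) →
      ∃ p : Fin m → V d, ∀ i, Occurs p (θ i)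

theorem finish {d : ℕ} (hd : 2 ≤ d) {ε c0 : ℝ} (hε : 0 < ε) (hε1 : ε < 1) (hc0 : 0 < c0)
    (hεc : ε < Real.pi / 2 - c0) :
    ∃ (N : ℕ) (uu : Fin N → ℝ) (ω η δ1 c' : ℝ), 0 < ω ∧ 0 < η ∧ 0 < δ1 ∧ 1 / 2 ≤ c' ∧ c' < 1 ∧
    (∀ τ, |uu τ| + ω ≤ c') ∧ FinProp d N uu ω η δ1 ε c0 := by
  classical
  obtain ⟨N, uu, ω, η, δ1, c', hω, hη, hδ1, hc'1, hc'2, hu, H⟩ := det hd hε hε1 hc0
  refine ⟨N, uu, ω, η, δ1, c', hω, hη, hδ1, hc'1, hc'2, hu, ?_⟩
  intro m n c h θ σβ σψ σρ σE imax hn hm hn2 hinj hc hhc hθ hM1 hM2 hβ hψ hρ hEh hEn hEr hB1 hB2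
  set Y := m - m₀ d N with hY
  have hnY : n = Fintype.card (Sl d N c h) + d * Y := by rw [hn]; exact count hd c h hm
  set σ : Sl d N c h → Fin n := Sum.elim σβ (Sum.elim σψ (Sum.elim σρ (Sum.elim σE
        (fun _ : Unit => imax)))) with hσ
  set R : Finset (Fin n) := (Finset.univ.image σ)ᶜ with hRdef
  have hR : R.card = d * Y := by
    have hcS : (Finset.univ.image σ).card = Fintype.card (Sl d N c h) := by
      rw [Finset.card_image_of_injective _ hinj, Finset.card_univ]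
    rw [hRdef, Finset.card_compl, Fintype.card_fin, hcS, hnY, Nat.add_sub_cancel_left]
  have hdR : (2 : ℝ) ≤ d := by exact_mod_cast hd
  have hdY : n ≤ 2 * (d * Y) := by omega
  have hdYR : (n : ℝ) ≤ 2 * (d * Y) := by exact_mod_cast hdY
  have hnRY : ((d : ℝ) * Y) ≤ n := by
    have : d * Y ≤ n := by omega
    exact_mod_cast this
  obtain ⟨g, hg1, hg2, hg3⟩ := groups hd h R hR
    (fun i => θ i ∈ (Icc ε (Real.pi - ε))ᶜ)
    (fun i => θ i ∉ Icc (Real.pi / 2 - c0) (Real.pi / 2 + c0)) (by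
      intro i hi hi2
      refine hi ⟨?_, ?_⟩
      · linarith [hi2.1]
      · linarith [hi2.2]) (by
      have h1 : (R.filter fun i => θ i ∈ (Icc ε (Real.pi - ε))ᶜ).card ≤
          (Finset.univ.filter fun i => θ i ∈ (Icc ε (Real.pi - ε))ᶜ).card :=
        Finset.card_le_card (Finset.filter_subset_filter _ (Finset.subset_univ _))
      have h2 : ((R.filter fun i => θ i ∈ (Icc ε (Real.pi - ε))ᶜ).card : ℝ) < n / (4 * d) :=
        lt_of_le_of_lt (by exact_mod_cast h1) hB1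
      have h3 : (n : ℝ) / (4 * d) ≤ Y := by
        rw [div_le_iff₀ (by positivity)]
        nlinarith
      have h4 : ((R.filter fun i => θ i ∈ (Icc ε (Real.pi - ε))ᶜ).card : ℝ) ≤ Y := by linarith
      exact_mod_cast h4) (by
      have h1 : (R.filter fun i => θ i ∈ Icc (Real.pi / 2 - c0) (Real.pi / 2 + c0)).card ≤
          (Finset.univ.filter fun i =>
            θ i ∈ Icc (Real.pi / 2 - c0) (Real.pi / 2 + c0)).card :=
        Finset.card_le_card (Finset.filter_subset_filter _ (Finset.subset_univ _))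
      have h2 := Finset.card_filter_add_card_filter_not (s := R)
        (fun i => θ i ∈ Icc (Real.pi / 2 - c0) (Real.pi / 2 + c0))
      have h3 : ((R.filter fun i => θ i ∈ Icc (Real.pi / 2 - c0) (Real.pi / 2 + c0)).card : ℝ) <
          n / 4 := lt_of_le_of_lt (by exact_mod_cast h1) hB2
      have h4 : ((R.filter fun i => θ i ∈ Icc (Real.pi / 2 - c0) (Real.pi / 2 + c0)).card : ℝ) +
          ((R.filter fun i => ¬ θ i ∈ Icc (Real.pi / 2 - c0) (Real.pi / 2 + c0)).card : ℝ) =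
          d * Y := by
        rw [hR] at h2
        exact_mod_cast h2
      have h5 : (Y : ℝ) ≤
          ((R.filter fun i => ¬ θ i ∈ Icc (Real.pi / 2 - c0) (Real.pi / 2 + c0)).card : ℝ) := by
        have hY0 : (0 : ℝ) ≤ Y := Nat.cast_nonneg _
        nlinarith
      exact_mod_cast h5)
  obtain ⟨p, hp1, hp2, hp3, hp4, hp5, hp6⟩ := H Y c h
    (fun i j => if hij : i < j then θ (σβ ⟨(i, j), hij⟩) else 0)
    (fun j => if hj : j ≠ c then θ (σψ ⟨j, hj⟩) else 0)
    (fun j => if hj : j ≠ c then θ (σρ ⟨j, hj⟩) else 0)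
    (fun i τ j => if hi : i ≠ h then θ (σE (⟨i, hi⟩, τ, j)) else 0)
    (fun y j => θ (g y j)) (θ imax) hc hhc hM1 hM2
    (by
      intro i j hij
      simp only [hij, dif_pos]
      exact ⟨(hθ _).1, lt_of_le_of_lt (hθ _).2 hM2, hβ _⟩)
    (by
      intro j hj
      have hcj : c < j := by
        have h1 : j.val ≠ c.val := fun h => hj (Fin.ext h)
        show c.val < j.val
        omega
      simp only [hj, ne_eq, not_false_eq_true, dif_pos, hcj]
      exact ⟨(hθ _).1, lt_of_le_of_lt (hθ _).2 hM2, hψ ⟨j, hj⟩ hcj⟩)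
    (by
      intro j hj
      simp only [hj, ne_eq, not_false_eq_true, dif_pos]
      exact ⟨(hθ _).1, lt_of_le_of_lt (hθ _).2 hM2, hρ _⟩)
    (by
      intro i hi τ j
      simp only [hi, ne_eq, not_false_eq_true, dif_pos]
      exact ⟨(hθ _).1, lt_of_le_of_lt (hθ _).2 hM2⟩)
    (by
      intro i hi τ
      simp only [hi, ne_eq, not_false_eq_true, dif_pos]
      exact hEh _ _)
    (by
      intro i hi τ j hji hjh
      simp only [hi, ne_eq, not_false_eq_true, dif_pos]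
      exact hEn ⟨i, hi⟩ τ j hji hjh)
    (by
      intro i hi τ
      simp only [hi, ne_eq, not_false_eq_true, dif_pos]
      exact hEr ⟨i, hi⟩ τ)
    (fun y j => hθ _)
    (by
      intro y j hj
      have := hg3 y j hj
      rw [mem_compl_iff, not_not] at this
      exact this)
    (by
      intro y
      have h1 := hg2 y
      rw [mem_Icc, not_and_or, not_le, not_le] at h1
      rw [lt_abs]
      rcases h1 with h1 | h1
      · right; linarith
      · left; linarith)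
  have hcard : Fintype.card (Fin m) = Fintype.card (Option (QQ d N Y h)) := by
    rw [card_QQ, Fintype.card_fin]
    have : m = m₀ d N + Y := by omega
    rw [this, m₀]
    ring
  have e : Fin m ≃ Option (QQ d N Y h) := Fintype.equivOfCardEq hcard
  refine ⟨p ∘ e, fun i => ?_⟩
  have key : Occurs p (θ i) → Occurs (p ∘ e) (θ i) := by
    rintro ⟨a, b, c, h1, h2, h3⟩
    exact ⟨e.symm a, e.symm b, e.symm c, by simpa using h1, by simpa using h2, by simpa using h3⟩
  refine key ?_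
  by_cases hi : i ∈ R
  · obtain ⟨y, j, rfl⟩ := hg1 i hi
    exact hp5 y j
  · rw [hRdef, Finset.mem_compl, not_not, Finset.mem_image] at hi
    obtain ⟨s, -, rfl⟩ := hi
    rcases s with q | q | q | q | q
    · have := hp1 q.1.1 q.1.2 q.2
      simp only [q.2, dif_pos] at this
      exact this
    · have := hp2 q.1 q.2
      simp only [q.2, ne_eq, not_false_eq_true, dif_pos] at this
      exact this
    · have := hp3 q.1 q.2
      simp only [q.2, ne_eq, not_false_eq_true, dif_pos] at this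
      exact this
    · have := hp4 q.1.1 q.1.2 q.2.1 q.2.2
      simp only [q.1.2, ne_eq, not_false_eq_true, dif_pos] at this
      exact this
    · exact hp6

end Pool.Agent.Helper54_Angles
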