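import Mathlib
import Pool.Agent.Helper54_Angles.Finish

/-!
# Good outcomes are realisable
-/

namespace Pool.Agent.Helper54_Angles

open Set Metric

/-- The labels of the small blocks. -/
abbrev SL (d N K : ℕ) (c h : Fin d) :=
  {p : Fin d × Fin d // p.1 < p.2} ⊕ ({j : Fin d // j ≠ c} ⊕
    (({i : Fin d // i ≠ h} × Fin N × Fin d) ⊕ ({j : Fin d // j ≠ c} × Fin K)))

/-- The windows of the small blocks. -/
def wn {d N K : ℕ} (c h : Fin d) (uu : Fin N → ℝ) (ω η : ℝ) (lo hi : Fin K → ℝ) :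
    SL d N K c h → Set ℝ :=
  Sum.elim (fun _ => {x | |Real.cos x| < η}) (Sum.elim (fun _ => {x | 1 / 2 < Real.cos x})
    (Sum.elim (fun q => if q.2.2 = h then {x | |Real.cos x - uu q.2.1| < ω} else
      if q.2.2 = q.1.1 then {x | 1 / 2 < Real.cos x} else {x | |Real.cos x| < η})
      (fun q => Ioo (lo q.2) (hi q.2))))

lemma abs_cos_lt {x η : ℝ} (h1 : Real.pi / 2 - η < x) (h2 : x < Real.pi / 2 + η) :
    |Real.cos x| < η := by
  have := Real.abs_cos_sub_cos_le x (Real.pi / 2)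
  rw [Real.cos_pi_div_two, sub_zero] at this
  refine lt_of_le_of_lt this ?_
  rw [abs_lt]
  constructor <;> linarith

theorem good_real {d N K A A' m n : ℕ} {uu : Fin N → ℝ} {ω η η' δ1 c' ε c0 κ t c1 : ℝ}
    {c h : Fin d} (F : FinProp d N uu ω η δ1 ε c0)
    (hη : η' ≤ η) (hη2 : η' ≤ 1 / 2) (hc'1 : 1 / 2 ≤ c') (hu : ∀ τ, |uu τ| + ω ≤ c')
    (ι : ({j : Fin d // j ≠ c} × Fin A) ⊕ (SL d N K c h × Fin A') ↪ Fin n) {lo hi : Fin K → ℝ}
    (hlo : ∀ k, Real.pi / 2 - η' ≤ lo k) (hhi : ∀ k, hi k + t ≤ Real.pi / 2 + η') (ht0 : 0 ≤ t)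
    (ht : t ≤ 1 / (20 * (d : ℝ)) * (κ / n)) (hκ : 0 < κ)
    (hn : n = d * m - (d + 1).choose 2 - 1) (hm : m₀ d N ≤ m)
    (hn2 : 2 * Fintype.card (Sl d N c h) ≤ n) (hc : c.val = 0) (hhc : h ≠ c)
    (hc1 : c1 ≤ δ1) (hc11 : c1 ≤ 1) (hc1' : c' ≤ Real.cos c1) {θ : Fin n → ℝ}
    (g0 : ∀ i, 0 < θ i ∧ θ i < Real.pi) (g1 : ∀ i, θ i ≤ Real.pi - κ / n)
    (g2 : ∃ i, Real.pi - c1 < θ i) (g3 : ∀ s : SL d N K c h, ∃ a, θ (ι (Sum.inr (s, a))) ∈
      wn c h uu ω η' lo hi s)
    (g4 : ∀ j : {j : Fin d // j ≠ c}, ∃ k a b,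
      θ (ι (Sum.inr (Sum.inr (Sum.inr (Sum.inr (j, k))), a))) ∈ Ioo (lo k) (hi k) ∧
      θ (ι (Sum.inl (j, b))) ∈ Ioo (θ (ι (Sum.inr (Sum.inr (Sum.inr (Sum.inr (j, k))), a))))
        (θ (ι (Sum.inr (Sum.inr (Sum.inr (Sum.inr (j, k))), a))) + t))
    (g5 : (((Finset.univ.filter fun i => θ i ∈ (Icc ε (Real.pi - ε))ᶜ).card : ℝ) < n / (4 * d)))
    (g6 : (((Finset.univ.filter fun i => θ i ∈ Icc (Real.pi / 2 - c0) (Real.pi / 2 + c0)).card :
      ℝ) < n / 4)) :
    ∃ p : Fin m → V d, ∀ i, Occurs p (θ i) := by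
  classical
  obtain ⟨i₁, hi₁⟩ := g2
  have hne : Nonempty (Fin n) := ⟨i₁⟩
  obtain ⟨imax, himax⟩ := Finite.exists_max θ
  have hπ := Real.pi_gt_three
  have hnpos : (0 : ℝ) < n := by
    have : 0 < n := lt_of_le_of_lt (Nat.zero_le _) i₁.2
    exact_mod_cast this
  have hdpos : (0 : ℝ) < d := by
    have : 0 < d := lt_of_le_of_lt (Nat.zero_le _) c.2
    exact_mod_cast this
  have hmax : Real.pi - c1 < θ imax := lt_of_lt_of_le hi₁ (himax i₁)
  have hcosmax : Real.cos (θ imax) < -c' := by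
    have h1 : Real.cos (θ imax) < Real.cos (Real.pi - c1) :=
      Real.cos_lt_cos_of_nonneg_of_le_pi (by linarith) (g0 imax).2.le hmax
    rw [Real.cos_pi_sub] at h1
    linarith
  choose a ha using g3
  choose k a' b h4a h4b using g4
  -- all windows avoid the neighbourhood of π
  have hwin : ∀ s : SL d N K c h, ∀ x ∈ wn c h uu ω η' lo hi s, -c' ≤ Real.cos x := by
    have e1 : ∀ x, |Real.cos x| < η' → -c' ≤ Real.cos x := by
      intro x hx
      have := (abs_lt.1 hx).1
      linarith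
    rintro (p | (p | (p | p))) x hx
    · exact e1 x hx
    · have hx' : 1 / 2 < Real.cos x := hx
      linarith
    · simp only [wn, Sum.elim_inr, Sum.elim_inl] at hx
      split_ifs at hx with h1 h2
      · have hx' : |Real.cos x - uu p.2.1| < ω := hx
        have h2 := hu p.2.1
        have h3 := (abs_lt.1 hx').1
        have h4 := neg_abs_le (uu p.2.1)
        linarith
      · have hx' : 1 / 2 < Real.cos x := hx
        linarith
      · exact e1 x hx
    · have hx' : x ∈ Ioo (lo p.2) (hi p.2) := hx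
      refine e1 x (abs_cos_lt (lt_of_le_of_lt (hlo p.2) hx'.1) ?_)
      have := hhi p.2
      linarith [hx'.2]
  -- the special slots
  set X : ({p : Fin d × Fin d // p.1 < p.2} ⊕ ({j : Fin d // j ≠ c} ⊕ ({j : Fin d // j ≠ c} ⊕
    ({i : Fin d // i ≠ h} × Fin N × Fin d)))) →
      ({j : Fin d // j ≠ c} × Fin A) ⊕ (SL d N K c h × Fin A') := Sum.elim
    (fun p => if hp : p.1.1 = c then
        Sum.inr (Sum.inr (Sum.inr (Sum.inr (⟨p.1.2, fun h => by
          have h1 := p.2
          rw [hp, h] at h1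
          exact lt_irrefl _ h1⟩, k ⟨p.1.2, fun h => by
          have h1 := p.2
          rw [hp, h] at h1
          exact lt_irrefl _ h1⟩))), a' ⟨p.1.2, fun h => by
          have h1 := p.2
          rw [hp, h] at h1
          exact lt_irrefl _ h1⟩)
      else Sum.inr (Sum.inl p, a (Sum.inl p)))
    (Sum.elim (fun j => Sum.inl (j, b j))
      (Sum.elim (fun j => Sum.inr (Sum.inr (Sum.inl j), a (Sum.inr (Sum.inl j))))
        (fun q => Sum.inr (Sum.inr (Sum.inr (Sum.inl q)), a (Sum.inr (Sum.inr (Sum.inl q))))))) with hX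
  have hXinj : Function.Injective X := by
    rintro (p | (p | (p | p))) (q | (q | (q | q))) hpq
    · simp only [hX, Sum.elim_inl] at hpq
      by_cases hp : p.1.1 = c <;> by_cases hq : q.1.1 = c
      · simp only [hp, hq, dif_pos, Sum.inr.injEq, Prod.mk.injEq, Subtype.mk.injEq] at hpq
        have : p = q := Subtype.ext (Prod.ext (hp.trans hq.symm) hpq.1.1)
        rw [this]
      · simp [hp, hq] at hpq
      · simp [hp, hq] at hpq
      · simp only [hp, hq, dif_neg, not_false_eq_true, Sum.inr.injEq, Prod.mk.injEq,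
          Sum.inl.injEq] at hpq
        rw [hpq.1]
    all_goals first
      | (simp only [hX, Sum.elim_inl, Sum.elim_inr] at hpq
         split_ifs at hpq <;> simp at hpq)
      | (simp only [hX, Sum.elim_inl, Sum.elim_inr, Sum.inr.injEq, Sum.inl.injEq,
           Prod.mk.injEq] at hpq
         rw [hpq.1])
      | (simp [hX] at hpq)
  have hcand : ∀ j, -c' ≤ Real.cos (θ (ι (Sum.inr (Sum.inr (Sum.inr (Sum.inr (j, k j))), a' j)))) :=
    fun j => hwin (Sum.inr (Sum.inr (Sum.inr (j, k j)))) _ (h4a j)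
  have hval : ∀ s, -c' ≤ Real.cos (θ (ι (X s))) := by
    rintro (p | (p | (p | p)))
    · simp only [hX, Sum.elim_inl]
      split_ifs with hp
      · exact hcand _
      · exact hwin _ _ (ha _)
    · have h1 := h4a p
      have h2 := h4b p
      have h3 := hlo (k p)
      have h4 := hhi (k p)
      have h5 : |Real.cos (θ (ι (Sum.inl (p, b p))))| < η' :=
        abs_cos_lt (by linarith [h1.1, h2.1]) (by linarith [h1.2, h2.2])
      have h6 := (abs_lt.1 h5).1
      show -c' ≤ Real.cos (θ (ι (Sum.inl (p, b p))))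
      linarith
    · exact hwin _ _ (ha _)
    · exact hwin _ _ (ha _)
  refine F m n c h θ (fun p => ι (X (Sum.inl p))) (fun j => ι (X (Sum.inr (Sum.inl j))))
    (fun j => ι (X (Sum.inr (Sum.inr (Sum.inl j)))))
    (fun q => ι (X (Sum.inr (Sum.inr (Sum.inr q))))) imax hn hm hn2 ?_ hc hhc
    (fun i => ⟨(g0 i).1, himax i⟩) (by linarith) (g0 imax).2 ?_ ?_ ?_ ?_ ?_ ?_ g5 g6
  · -- injectivity
    have hmaxne : ∀ s, ι (X s) ≠ imax := by
      intro s hs
      have := hval s
      rw [hs] at this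
      linarith
    rintro (p | (p | (p | (p | p)))) (q | (q | (q | (q | q)))) hpq
    all_goals simp only [Sum.elim_inl, Sum.elim_inr] at hpq
    all_goals first
      | rfl
      | exact absurd hpq (hmaxne _)
      | exact absurd hpq.symm (hmaxne _)
      | (have h1 := hXinj (ι.injective hpq)
         simp only [Sum.inl.injEq, Sum.inr.injEq, reduceCtorEq] at h1
         try rw [h1])
  · intro p
    simp only [hX, Sum.elim_inl]
    split_ifs with hp
    · set j : {j : Fin d // j ≠ c} := ⟨p.1.2, fun h => by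
          have h1 := p.2
          rw [hp, h] at h1
          exact lt_irrefl _ h1⟩ with hj
      have h1 := h4a j
      have h3 := hlo (k j)
      have h4 := hhi (k j)
      exact lt_of_lt_of_le (abs_cos_lt (η := η') (by linarith [h1.1]) (by linarith [h1.2])) hη
    · exact lt_of_lt_of_le (ha (Sum.inl p)) hη
  · intro j hj
    simp only [hX, Sum.elim_inl, Sum.elim_inr, dif_pos]
    have h1 := h4b j
    refine ⟨h1.1.ne', ?_⟩
    rw [abs_of_pos (sub_pos.2 h1.1)]
    have h2 := g1 imax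
    calc _ ≤ t := by linarith [h1.2]
      _ ≤ 1 / (20 * (d : ℝ)) * (κ / n) := ht
      _ ≤ 1 / (20 * (d : ℝ)) * (Real.pi - θ imax) := by
        gcongr
        linarith
  · intro j
    exact ha (Sum.inr (Sum.inl j))
  · intro i τ
    have := ha (Sum.inr (Sum.inr (Sum.inl (i, τ, h))))
    simp only [wn, Sum.elim_inr, Sum.elim_inl, if_true] at this
    exact this
  · intro i τ j hji hjh
    have := ha (Sum.inr (Sum.inr (Sum.inl (i, τ, j))))
    simp only [wn, Sum.elim_inr, Sum.elim_inl, hjh, hji, if_false] at this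
    exact lt_of_lt_of_le this hη
  · intro i τ
    have := ha (Sum.inr (Sum.inr (Sum.inl (i, τ, i.1))))
    simp only [wn, Sum.elim_inr, Sum.elim_inl, i.2, if_false, if_true] at this
    exact this

end Pool.Agent.Helper54_Angles
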