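import Mathlib

/-!
# Elementary probability estimates for independent uniform angles
-/

namespace Pool.Agent.Helper54_Angles

open Set MeasureTheory

/-- The uniform distribution on `(0,π)`. -/
noncomputable def uni : Measure ℝ := (ENNReal.ofReal Real.pi)⁻¹ • volume.restrict (Ioo 0 Real.pi)

lemma uni_apply {S : Set ℝ} (hS : MeasurableSet S) (hS' : S ⊆ Ioo 0 Real.pi) :
    uni S = (ENNReal.ofReal Real.pi)⁻¹ * volume S := by
  rw [uni, Measure.smul_apply, Measure.restrict_apply hS, inter_eq_left.2 hS', smul_eq_mul]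

lemma uni_le {S : Set ℝ} (hS : MeasurableSet S) :
    uni S ≤ (ENNReal.ofReal Real.pi)⁻¹ * volume S := by
  rw [uni, Measure.smul_apply, Measure.restrict_apply hS, smul_eq_mul]
  gcongr
  exact inter_subset_left

lemma ofReal_pi_ne_zero : ENNReal.ofReal Real.pi ≠ 0 := by
  simp [Real.pi_pos]

instance : IsProbabilityMeasure uni := by
  constructor
  rw [uni, Measure.smul_apply, Measure.restrict_apply_univ, Real.volume_Ioo, smul_eq_mul, sub_zero]
  exact ENNReal.inv_mul_cancel ofReal_pi_ne_zero ENNReal.ofReal_ne_top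

lemma uni_compl : uni (Ioo 0 Real.pi)ᶜ = 0 := by
  rw [uni, Measure.smul_apply, Measure.restrict_apply measurableSet_Ioo.compl]
  simp

lemma uni_Ioo {a b : ℝ} (ha : 0 ≤ a) (hb : b ≤ Real.pi) :
    uni (Ioo a b) = ENNReal.ofReal ((b - a) / Real.pi) := by
  rw [uni_apply measurableSet_Ioo (Ioo_subset_Ioo ha hb), Real.volume_Ioo, mul_comm,
    ENNReal.ofReal_div_of_pos Real.pi_pos, div_eq_mul_inv]

lemma uni_pos {S : Set ℝ} (hS : IsOpen S) (hne : (S ∩ Ioo 0 Real.pi).Nonempty) : 0 < uni S := by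
  rw [uni, Measure.smul_apply, Measure.restrict_apply hS.measurableSet, smul_eq_mul]
  have h1 : 0 < volume (S ∩ Ioo 0 Real.pi) := (hS.inter isOpen_Ioo).measure_pos _ hne
  exact ENNReal.mul_pos (by simp) h1.ne'

variable {n : ℕ} {μ : Measure ℝ} [IsProbabilityMeasure μ]

/-- The product measure. -/
noncomputable abbrev PP (n : ℕ) (μ : Measure ℝ) : Measure (Fin n → ℝ) := Measure.pi fun _ => μ

lemma pi_block (I : Finset (Fin n)) (W : Set ℝ) :
    PP n μ {θ | ∀ i ∈ I, θ i ∈ W} = μ W ^ I.card := by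
  classical
  have h1 : {θ : Fin n → ℝ | ∀ i ∈ I, θ i ∈ W} = Set.pi univ fun i => if i ∈ I then W else univ := by
    ext θ
    simp only [mem_ofPred_eq, mem_pi, mem_univ, true_implies]
    refine forall_congr' fun i => ?_
    split_ifs with h <;> simp [h]
  rw [PP, h1, Measure.pi_pi]
  have h2 : ∀ i : Fin n, μ (if i ∈ I then W else univ) = if i ∈ I then μ W else 1 := by
    intro i
    split_ifs <;> simp
  rw [Finset.prod_congr rfl fun i _ => h2 i]
  simp

lemma pi_general (I : Finset (Fin n)) (s : Fin n → Set ℝ) :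
    PP n μ {θ | ∀ i ∈ I, θ i ∈ s i} = ∏ i, if i ∈ I then μ (s i) else 1 := by
  classical
  have h1 : {θ : Fin n → ℝ | ∀ i ∈ I, θ i ∈ s i} =
      Set.pi univ fun i => if i ∈ I then s i else univ := by
    ext θ
    simp only [mem_ofPred_eq, mem_pi, mem_univ, true_implies]
    refine forall_congr' fun i => ?_
    split_ifs with h <;> simp [h]
  rw [PP, h1, Measure.pi_pi]
  refine Finset.prod_congr rfl fun i _ => ?_
  split_ifs <;> simp

theorem prob_le_of_merge (I : Finset (Fin n)) {S : Set (Fin n → ℝ)} (hS : MeasurableSet S)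
    {q : ENNReal}
    (h : ∀ x : Fin n → ℝ, PP n μ {y | (fun i => if i ∈ I then y i else x i) ∈ S} ≤ q) :
    PP n μ S ≤ q := by
  classical
  set Φ : (Fin n → ℝ) × (Fin n → ℝ) → (Fin n → ℝ) := fun z i => if i ∈ I then z.2 i else z.1 i
    with hΦ
  have hΦm : Measurable Φ := by
    refine measurable_pi_iff.2 fun i => ?_
    by_cases hi : i ∈ I
    · simp only [hΦ, hi, if_true]
      fun_prop
    · simp only [hΦ, hi, if_false]
      fun_prop
  have hmap : Measure.map Φ ((PP n μ).prod (PP n μ)) = PP n μ := by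
    refine (Measure.pi_eq fun s hs => ?_).symm
    rw [Measure.map_apply hΦm (MeasurableSet.univ_pi hs)]
    have h1 : Φ ⁻¹' (Set.pi univ s) = {x : Fin n → ℝ | ∀ i ∈ Iᶜ, x i ∈ s i} ×ˢ
        {y : Fin n → ℝ | ∀ i ∈ I, y i ∈ s i} := by
      ext z
      simp only [hΦ, mem_preimage, mem_pi, mem_univ, true_implies, mem_prod, mem_ofPred_eq,
        Finset.mem_compl]
      constructor
      · intro H
        refine ⟨fun i hi => ?_, fun i hi => ?_⟩
        · have := H i
          rwa [if_neg hi] at this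
        · have := H i
          rwa [if_pos hi] at this
      · rintro ⟨H1, H2⟩ i
        split_ifs with hi
        · exact H2 i hi
        · exact H1 i hi
    rw [h1, Measure.prod_prod, pi_general, pi_general, ← Finset.prod_mul_distrib]
    refine Finset.prod_congr rfl fun i _ => ?_
    by_cases hi : i ∈ I <;> simp [hi]
  calc PP n μ S = Measure.map Φ ((PP n μ).prod (PP n μ)) S := by rw [hmap]
    _ = ((PP n μ).prod (PP n μ)) (Φ ⁻¹' S) := Measure.map_apply hΦm hS
    _ = ∫⁻ x, PP n μ (Prod.mk x ⁻¹' (Φ ⁻¹' S)) ∂(PP n μ) := Measure.prod_apply (hΦm hS)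
    _ ≤ ∫⁻ _, q ∂(PP n μ) := lintegral_mono fun x => h x
    _ = q := by simp

/-- Markov. -/
theorem markov (A : Set ℝ) (hA : MeasurableSet A)
    [DecidablePred (· ∈ A)] {a : ℝ} (ha : 0 < a) :
    PP n μ {θ | a ≤ ((Finset.univ.filter fun i => θ i ∈ A).card : ℝ)} ≤
      ENNReal.ofReal ((n : ℝ) / a) * μ A := by
  have h1 : ∀ θ : Fin n → ℝ, (((Finset.univ.filter fun i => θ i ∈ A).card : ℕ) : ENNReal) =
      ∑ i, A.indicator (fun _ => (1 : ENNReal)) (θ i) := by
    intro θ
    rw [Finset.card_filter]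
    push_cast
    refine Finset.sum_congr rfl fun i _ => ?_
    by_cases hi : θ i ∈ A <;> simp [hi]
  have h2 : {θ : Fin n → ℝ | a ≤ ((Finset.univ.filter fun i => θ i ∈ A).card : ℝ)} ⊆
      {θ | ENNReal.ofReal a ≤ ∑ i, A.indicator (fun _ => (1 : ENNReal)) (θ i)} := by
    intro θ hθ
    rw [mem_ofPred_eq] at hθ ⊢
    rw [← h1, ← ENNReal.ofReal_natCast]
    exact ENNReal.ofReal_le_ofReal hθ
  have h3 : ∫⁻ θ, ∑ i, A.indicator (fun _ => (1 : ENNReal)) (θ i) ∂(PP n μ) = n * μ A := by
    rw [lintegral_finsetSum]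
    · have h4 : ∀ i : Fin n, ∫⁻ θ, A.indicator (fun _ => (1 : ENNReal)) (θ i) ∂(PP n μ) = μ A := by
        intro i
        have h5 := (measurePreserving_eval (fun _ : Fin n => μ) i).lintegral_comp
          (f := A.indicator fun _ => (1 : ENNReal)) (measurable_const.indicator hA)
        rw [PP]
        have h6 : ∫⁻ x, A.indicator (fun _ => (1 : ENNReal)) x ∂μ = μ A := by
          rw [lintegral_indicator hA]
          simp
        rw [← h6, ← h5]
      simp [h4]
    · intro i _
      exact (measurable_const.indicator hA).comp (measurable_pi_apply i)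
  calc PP n μ {θ | a ≤ ((Finset.univ.filter fun i => θ i ∈ A).card : ℝ)}
      ≤ PP n μ {θ | ENNReal.ofReal a ≤ ∑ i, A.indicator (fun _ => (1 : ENNReal)) (θ i)} :=
        measure_mono h2
    _ ≤ (∫⁻ θ, ∑ i, A.indicator (fun _ => (1 : ENNReal)) (θ i) ∂(PP n μ)) / ENNReal.ofReal a := by
        refine meas_ge_le_lintegral_div ?_ (by simpa using ha) ENNReal.ofReal_ne_top
        refine Finset.aemeasurable_fun_sum _ fun i _ => ?_
        exact ((measurable_const.indicator hA).comp (measurable_pi_apply i)).aemeasurable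
    _ = ENNReal.ofReal ((n : ℝ) / a) * μ A := by
        rw [h3, ENNReal.ofReal_div_of_pos ha, ENNReal.ofReal_natCast, div_eq_mul_inv,
          div_eq_mul_inv]
        ring

lemma meas_hit {K : ℕ} (cand : Fin K → Finset (Fin n)) (a b : Fin K → ℝ) :
    MeasurableSet {θ : Fin n → ℝ | ∀ k, ∃ i ∈ cand k, θ i ∈ Ioo (a k) (b k)} := by
  have h1 : {θ : Fin n → ℝ | ∀ k, ∃ i ∈ cand k, θ i ∈ Ioo (a k) (b k)} =
      ⋂ k, ⋃ i ∈ cand k, (fun θ : Fin n → ℝ => θ i) ⁻¹' Ioo (a k) (b k) := by
    ext θ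
    simp only [mem_ofPred_eq, mem_iInter, mem_iUnion, mem_preimage, exists_prop]
  rw [h1]
  exact MeasurableSet.iInter fun k => Finset.measurableSet_biUnion _ fun i _ =>
    measurable_pi_apply i measurableSet_Ioo

lemma meas_miss {K : ℕ} (I : Finset (Fin n)) (cand : Fin K → Finset (Fin n)) (a b : Fin K → ℝ)
    (t : ℝ) : MeasurableSet {θ : Fin n → ℝ | ∀ k, ∀ i ∈ cand k, θ i ∈ Ioo (a k) (b k) → ∀ j ∈ I,
      θ j ∉ Ioo (θ i) (θ i + t)} := by
  have h1 : {θ : Fin n → ℝ | ∀ k, ∀ i ∈ cand k, θ i ∈ Ioo (a k) (b k) → ∀ j ∈ I,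
      θ j ∉ Ioo (θ i) (θ i + t)} = ⋂ k, ⋂ i ∈ cand k,
      (((fun θ : Fin n → ℝ => θ i) ⁻¹' Ioo (a k) (b k))ᶜ ∪
        ⋂ j ∈ I, ({θ : Fin n → ℝ | θ i < θ j} ∩ {θ : Fin n → ℝ | θ j < θ i + t})ᶜ) := by
    ext θ
    simp only [mem_ofPred_eq, mem_iInter, mem_union, mem_compl_iff, mem_preimage, mem_inter_iff,
      mem_Ioo]
    refine forall_congr' fun k => forall_congr' fun i => forall_congr' fun _ => ?_
    tauto
  rw [h1]
  refine MeasurableSet.iInter fun k => Finset.measurableSet_biInter _ fun i _ => ?_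
  refine MeasurableSet.union (measurable_pi_apply i measurableSet_Ioo).compl ?_
  refine Finset.measurableSet_biInter _ fun j _ => MeasurableSet.compl ?_
  refine MeasurableSet.inter ?_ ?_
  · exact measurableSet_lt (measurable_pi_apply i) (measurable_pi_apply j)
  · exact measurableSet_lt (measurable_pi_apply j) (by fun_prop)

/-- The twin event. -/
theorem twin_prob {K : ℕ} (I : Finset (Fin n)) (cand : Fin K → Finset (Fin n))
    (hdisj : ∀ k, ∀ i ∈ cand k, i ∉ I) (a b : Fin K → ℝ) {t : ℝ} (ht : 0 ≤ t)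
    (ha : ∀ k, 0 ≤ a k) (hb : ∀ k, b k + t ≤ Real.pi)
    (hab : ∀ k l, k ≠ l → Disjoint (Ioo (a k) (b k + t)) (Ioo (a l) (b l + t))) :
    PP n uni ({θ | ∀ k, ∃ i ∈ cand k, θ i ∈ Ioo (a k) (b k)} ∩ {θ |
      ∀ k, ∀ i ∈ cand k, θ i ∈ Ioo (a k) (b k) → ∀ j ∈ I, θ j ∉ Ioo (θ i) (θ i + t)}) ≤
      ENNReal.ofReal (Real.exp (-(K * t * I.card / Real.pi))) := by
  classical
  have hπ := Real.pi_pos
  refine prob_le_of_merge I ((meas_hit cand a b).inter (meas_miss I cand a b t)) fun x => ?_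
  by_cases hx : ∀ k, ∃ i ∈ cand k, x i ∈ Ioo (a k) (b k)
  · choose i hi1 hi2 using hx
    set Z : Set ℝ := ⋃ k, Ioo (x (i k)) (x (i k) + t) with hZ
    have hZm : MeasurableSet Z := MeasurableSet.iUnion fun k => measurableSet_Ioo
    have hZu : uni Z = ENNReal.ofReal (K * t / Real.pi) := by
      rw [hZ, measure_iUnion _ fun k => measurableSet_Ioo]
      · rw [tsum_fintype]
        have : ∀ k, uni (Ioo (x (i k)) (x (i k) + t)) = ENNReal.ofReal (t / Real.pi) := by
          intro k
          rw [uni_Ioo ((ha k).trans (hi2 k).1.le) (by linarith [(hi2 k).2, hb k])]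
          congr 2
          ring
        simp only [this, Finset.sum_const, Finset.card_univ, Fintype.card_fin, nsmul_eq_mul]
        rw [← ENNReal.ofReal_natCast, ← ENNReal.ofReal_mul (Nat.cast_nonneg _)]
        congr 1
        ring
      · intro k l hkl
        refine (hab k l hkl).mono ?_ ?_
        · exact Ioo_subset_Ioo (hi2 k).1.le (by linarith [(hi2 k).2])
        · exact Ioo_subset_Ioo (hi2 l).1.le (by linarith [(hi2 l).2])
    have hZc : uni Zᶜ ≤ ENNReal.ofReal (Real.exp (-(K * t / Real.pi))) := by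
      rw [prob_compl_eq_one_sub hZm, hZu, ← ENNReal.ofReal_one,
        ← ENNReal.ofReal_sub _ (by positivity)]
      refine ENNReal.ofReal_le_ofReal ?_
      have := Real.add_one_le_exp (-(K * t / Real.pi))
      linarith
    calc _ ≤ PP n uni {y | ∀ j ∈ I, y j ∈ Zᶜ} := by
          refine measure_mono fun y hy j hj hjZ => ?_
          obtain ⟨k, hk⟩ := mem_iUnion.1 hjZ
          have h1 := hy.2 k (i k) (hi1 k)
          simp only [hdisj k (i k) (hi1 k), if_false] at h1
          have h2 := h1 (hi2 k) j hj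
          simp only [hj, if_true] at h2
          exact h2 hk
      _ = uni Zᶜ ^ I.card := pi_block I _
      _ ≤ ENNReal.ofReal (Real.exp (-(K * t / Real.pi))) ^ I.card := by gcongr
      _ = ENNReal.ofReal (Real.exp (-(K * t * I.card / Real.pi))) := by
          rw [← ENNReal.ofReal_pow (Real.exp_pos _).le, ← Real.exp_nat_mul]
          congr 2
          ring
  · refine (measure_mono (t := (∅ : Set (Fin n → ℝ))) ?_).trans (by simp)
    rintro y ⟨h1, -⟩
    refine absurd (fun k => ?_) hx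
    obtain ⟨i, hi, h2⟩ := h1 k
    simp only [hdisj k i hi, if_false] at h2
    exact ⟨i, hi, h2⟩

end Pool.Agent.Helper54_Angles
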