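import Mathlib
import Pool.Agent.Helper54_Angles.Good
import Pool.Agent.Helper54_Angles.Prob

/-!
# The probability of realisability tends to one
-/

namespace Pool.Agent.Helper54_Angles

open Set Metric MeasureTheory Filter Topology

/-- The number of degrees of freedom. -/
def nd (d m : ℕ) : ℕ := d * m - (d + 1).choose 2 - 1

lemma tendsto_nd {d : ℕ} (hd : 2 ≤ d) : Tendsto (nd d) atTop atTop := by
  have h1 : Tendsto (fun m : ℕ => m - ((d + 1).choose 2 + 1)) atTop atTop :=
    tendsto_sub_atTop_nat _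
  refine tendsto_atTop_mono (fun m => ?_) h1
  show m - ((d + 1).choose 2 + 1) ≤ d * m - (d + 1).choose 2 - 1
  have : m ≤ d * m := by nlinarith
  omega

variable {d N K : ℕ} {c h : Fin d}

lemma wn_open (uu : Fin N → ℝ) (ω η : ℝ) (lo hi : Fin K → ℝ) (s : SL d N K c h) :
    IsOpen (wn c h uu ω η lo hi s) := by
  have e1 : IsOpen {x : ℝ | |Real.cos x| < η} :=
    isOpen_lt (continuous_abs.comp Real.continuous_cos) continuous_const
  have e2 : IsOpen {x : ℝ | 1 / 2 < Real.cos x} := isOpen_lt continuous_const Real.continuous_cos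
  rcases s with p | (p | (p | p))
  · exact e1
  · exact e2
  · simp only [wn, Sum.elim_inr, Sum.elim_inl]
    split_ifs
    · exact isOpen_lt (continuous_abs.comp (Real.continuous_cos.sub continuous_const))
        continuous_const
    · exact e2
    · exact e1
  · exact isOpen_Ioo

lemma wn_nonempty {uu : Fin N → ℝ} {ω η c' : ℝ} {lo hi : Fin K → ℝ} (hω : 0 < ω) (hη : 0 < η)
    (hη2 : η ≤ 1 / 2) (hc' : c' < 1) (hu : ∀ τ, |uu τ| + ω ≤ c')
    (hlo : ∀ k, Real.pi / 2 - η ≤ lo k) (hhi : ∀ k, hi k ≤ Real.pi / 2 + η)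
    (hlt : ∀ k, lo k < hi k) (s : SL d N K c h) :
    (wn c h uu ω η lo hi s ∩ Ioo 0 Real.pi).Nonempty := by
  have hπ := Real.pi_gt_three
  have e1 : ({x : ℝ | |Real.cos x| < η} ∩ Ioo 0 Real.pi).Nonempty :=
    ⟨Real.pi / 2, by rw [mem_ofPred_eq, Real.cos_pi_div_two, abs_zero]; exact hη,
      by linarith, by linarith⟩
  have e2 : ({x : ℝ | 1 / 2 < Real.cos x} ∩ Ioo 0 Real.pi).Nonempty := by
    refine ⟨1, ?_, by norm_num, by linarith⟩
    rw [mem_ofPred_eq, ← Real.cos_pi_div_three]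
    exact Real.cos_lt_cos_of_nonneg_of_le_pi zero_le_one (by linarith) (by linarith)
  rcases s with p | (p | (p | p))
  · exact e1
  · exact e2
  · simp only [wn, Sum.elim_inr, Sum.elim_inl]
    split_ifs
    · have h1 := hu p.2.1
      have h2 := abs_lt.1 (show |uu p.2.1| < 1 by linarith)
      refine ⟨Real.arccos (uu p.2.1), ?_, Real.arccos_pos.2 h2.2, ?_⟩
      · rw [mem_ofPred_eq, Real.cos_arccos h2.1.le h2.2.le, sub_self, abs_zero]
        exact hω
      · refine lt_of_le_of_ne (Real.arccos_le_pi _) fun h3 => ?_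
        have := Real.arccos_eq_pi.1 h3
        linarith [h2.1]
    · exact e2
    · exact e1
  · have h1 := hlo p.2
    have h2 := hhi p.2
    have h3 := hlt p.2
    refine ⟨(lo p.2 + hi p.2) / 2, ⟨?_, ?_⟩, ?_, ?_⟩ <;> linarith

lemma uni_compl_lt {S : Set ℝ} (hS : IsOpen S) (hne : (S ∩ Ioo 0 Real.pi).Nonempty) :
    uni Sᶜ < 1 := by
  rw [prob_compl_eq_one_sub hS.measurableSet]
  exact ENNReal.sub_lt_self ENNReal.one_ne_top one_ne_zero (uni_pos hS hne).ne'

/-- The realisable tuples. -/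
def Rea (d m n : ℕ) : Set (Fin n → ℝ) := {θ | ∃ p : Fin m → V d, ∀ i, Occurs p (θ i)}

lemma uni_ends {ε : ℝ} (h0 : 0 ≤ ε) (h1 : ε ≤ 1) :
    uni (Icc ε (Real.pi - ε))ᶜ ≤ ENNReal.ofReal (2 * ε / Real.pi) := by
  have hπ := Real.pi_gt_three
  have h2 : (Icc ε (Real.pi - ε))ᶜ ⊆ (Ioo 0 ε ∪ Ioo (Real.pi - ε) Real.pi) ∪
      (Ioo 0 Real.pi)ᶜ := by
    intro x hx
    rw [mem_compl_iff, mem_Icc, not_and_or, not_le, not_le] at hx
    by_cases hx2 : x ∈ Ioo 0 Real.pi
    · left
      rcases hx with hx | hx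
      · left; exact ⟨hx2.1, hx⟩
      · right; exact ⟨hx, hx2.2⟩
    · right; exact hx2
  calc uni (Icc ε (Real.pi - ε))ᶜ ≤ _ := measure_mono h2
    _ ≤ (uni (Ioo 0 ε) + uni (Ioo (Real.pi - ε) Real.pi)) + uni (Ioo 0 Real.pi)ᶜ :=
      (measure_union_le _ _).trans (by gcongr; exact measure_union_le _ _)
    _ = ENNReal.ofReal (2 * ε / Real.pi) := by
      rw [uni_compl, add_zero, uni_Ioo le_rfl (by linarith), uni_Ioo (by linarith) le_rfl,
        ← ENNReal.ofReal_add (by positivity) (by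
          refine div_nonneg ?_ Real.pi_pos.le
          linarith)]
      congr 1
      ring

lemma uni_top {u : ℝ} (h1 : u ≤ 1) :
    uni (Ioi (Real.pi - u)) ≤ ENNReal.ofReal (u / Real.pi) := by
  have hπ := Real.pi_gt_three
  have h2 : Ioi (Real.pi - u) ⊆ Ioo (Real.pi - u) Real.pi ∪ (Ioo 0 Real.pi)ᶜ := by
    intro x hx
    by_cases hx2 : x ∈ Ioo 0 Real.pi
    · left; exact ⟨hx, hx2.2⟩
    · right; exact hx2
  calc uni (Ioi (Real.pi - u)) ≤ _ := measure_mono h2
    _ ≤ uni (Ioo (Real.pi - u) Real.pi) + uni (Ioo 0 Real.pi)ᶜ := measure_union_le _ _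
    _ = ENNReal.ofReal (u / Real.pi) := by
      rw [uni_compl, add_zero, uni_Ioo (by linarith) le_rfl]
      congr 1
      ring

lemma uni_mid {u : ℝ} :
    uni (Icc (Real.pi / 2 - u) (Real.pi / 2 + u)) ≤ ENNReal.ofReal (2 * u / Real.pi) := by
  refine (uni_le measurableSet_Icc).trans ?_
  rw [Real.volume_Icc, mul_comm, ENNReal.ofReal_div_of_pos Real.pi_pos, div_eq_mul_inv]
  exact mul_le_mul' (ENNReal.ofReal_le_ofReal (by linarith)) le_rfl

lemma arith1 {K d n γ : ℝ} (hd : 0 < d) (hn : 0 < n) :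
    K * (1 / (20 * d) * (γ / n)) * (n / (4 * d)) / Real.pi =
      K * (γ / (80 * d ^ 2 * Real.pi)) := by
  have := Real.pi_pos
  field_simp
  ring

theorem main {d : ℕ} (hd : 2 ≤ d) {γ : ℝ} (hγ : 0 < γ) (hγ1 : γ ≤ 1) :
    ∀ᶠ m in atTop, PP (nd d m) uni (Rea d m (nd d m))ᶜ ≤ 6 * ENNReal.ofReal γ := by
  classical
  have hπ := Real.pi_gt_three
  have hdR : (2 : ℝ) ≤ d := by exact_mod_cast hd
  set c : Fin d := ⟨0, by omega⟩ with hc
  set h : Fin d := ⟨1, by omega⟩ with hh
  have hhc : h ≠ c := by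
    intro e
    have := congrArg Fin.val e
    simp [hc, hh] at this
  set ε : ℝ := γ / (8 * d) with hε
  have hε0 : 0 < ε := by positivity
  have hε1 : ε ≤ 1 / 16 := by
    rw [hε, div_le_div_iff₀ (by positivity) (by norm_num)]
    nlinarith
  obtain ⟨N, uu, ω, η, δ1, c', hω, hη, hδ1, hc'1, hc'2, hu, F⟩ := finish hd (ε := ε)
    (c0 := γ / 8) hε0 (by linarith) (by positivity) (by linarith)
  set η' : ℝ := min η (1 / 2) with hη'
  have hη'0 : 0 < η' := lt_min hη (by norm_num)
  set c1 : ℝ := min (min δ1 1) (Real.arccos c') with hc1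
  have hc10 : 0 < c1 := lt_min (lt_min hδ1 one_pos) (Real.arccos_pos.2 hc'2)
  have hc11 : c1 ≤ 1 := (min_le_left _ _).trans (min_le_right _ _)
  have hc1c : c' ≤ Real.cos c1 := by
    rw [← Real.cos_arccos (x := c') (by linarith) hc'2.le]
    exact Real.cos_le_cos_of_nonneg_of_le_pi hc10.le (Real.arccos_le_pi _) (min_le_right _ _)
  -- the number of candidates
  obtain ⟨K, hK0, hK⟩ : ∃ K : ℕ, 0 < K ∧
      d * Real.exp (-(K * (γ / (80 * d ^ 2 * Real.pi)))) ≤ γ := by
    have e0 : 0 < γ / (80 * d ^ 2 * Real.pi) := by positivity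
    have e1 : Tendsto (fun K : ℕ => (K : ℝ) * (γ / (80 * d ^ 2 * Real.pi))) atTop atTop :=
      tendsto_natCast_atTop_atTop.atTop_mul_const e0
    have e2 : Tendsto (fun K : ℕ => d * Real.exp (-(K * (γ / (80 * d ^ 2 * Real.pi))))) atTop
        (𝓝 (d * 0)) := by
      refine Tendsto.const_mul _ ?_
      exact Real.tendsto_exp_neg_atTop_nhds_zero.comp e1
    rw [mul_zero] at e2
    obtain ⟨K, hK1, hK2⟩ := ((e2.eventually (gt_mem_nhds hγ)).and (eventually_gt_atTop 0)).exists
    exact ⟨K, hK2, hK1.le⟩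
  have hKR : (0 : ℝ) < K := by exact_mod_cast hK0
  set s' : ℝ := η' / K with hs'
  have hs'0 : 0 < s' := by positivity
  set lo : Fin K → ℝ := fun k => Real.pi / 2 - η' + 2 * k * s' with hlo
  set hi : Fin K → ℝ := fun k => lo k + s' with hhi
  have hlo1 : ∀ k, Real.pi / 2 - η' ≤ lo k := by
    intro k
    simp only [hlo]
    have : 0 ≤ 2 * (k : ℝ) * s' := by positivity
    linarith
  have hhi1 : ∀ k, hi k + s' ≤ Real.pi / 2 + η' := by
    intro k
    simp only [hhi, hlo]
    have h1 : (k : ℝ) + 1 ≤ K := by exact_mod_cast k.2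
    have h2 : K * s' = η' := by rw [hs']; field_simp
    nlinarith
  have hη'2 : η' ≤ 1 / 2 := min_le_right _ _
  set L : ℕ := Fintype.card (SL d N K c h) with hL
  -- asymptotic requirements
  have hq3 : uni (Iic (Real.pi - c1)) < 1 := by
    have : Iic (Real.pi - c1) = (Ioi (Real.pi - c1))ᶜ := by ext; simp
    rw [this]
    refine uni_compl_lt isOpen_Ioi ⟨Real.pi - c1 / 2, ?_, ?_, ?_⟩
    · show Real.pi - c1 < Real.pi - c1 / 2
      linarith
    · linarith
    · linarith
  have hlim3 : Tendsto (fun n : ℕ => uni (Iic (Real.pi - c1)) ^ n) atTop (𝓝 0) :=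
    ENNReal.tendsto_pow_atTop_nhds_zero_of_lt_one hq3
  have hlim4 : Tendsto (fun n : ℕ => ∑ s : SL d N K c h,
      uni (wn c h uu ω η' lo hi s)ᶜ ^ (n / (2 * L))) atTop (𝓝 0) := by
    have e1 : (0 : ENNReal) = ∑ s : SL d N K c h, 0 := by simp
    rw [e1]
    refine tendsto_finsetSum _ fun s _ => ?_
    have hLpos : 2 * L ≠ 0 := by
      have : 0 < L := Fintype.card_pos_iff.2 ⟨s⟩
      omega
    have e2 := ENNReal.tendsto_pow_atTop_nhds_zero_of_lt_one
      (uni_compl_lt (wn_open uu ω η' lo hi s) (wn_nonempty hω hη'0 hη'2 hc'2 hu hlo1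
        (fun k => by linarith [hhi1 k]) (fun k => by simp only [hhi]; linarith) s))
    exact e2.comp (Nat.tendsto_div_const_atTop hLpos)
  have hγE : (0 : ENNReal) < ENNReal.ofReal γ := by simpa using hγ
  have hev : ∀ᶠ n : ℕ in atTop, (uni (Iic (Real.pi - c1)) ^ n ≤ ENNReal.ofReal γ ∧
      ∑ s : SL d N K c h, uni (wn c h uu ω η' lo hi s)ᶜ ^ (n / (2 * L)) ≤ ENNReal.ofReal γ) ∧
      (2 * Fintype.card (Sl d N c h) ≤ n ∧ 4 * d ≤ n ∧ 1 / s' ≤ n) := by
    refine ((hlim3.eventually (ge_mem_nhds hγE)).and (hlim4.eventually (ge_mem_nhds hγE))).and ?_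
    exact (eventually_ge_atTop _).and ((eventually_ge_atTop _).and
      (tendsto_natCast_atTop_atTop.eventually_ge_atTop _))
  filter_upwards [(tendsto_nd hd).eventually hev, eventually_ge_atTop (m₀ d N)] with m hm hm0
  obtain ⟨⟨hm1, hm2⟩, hm3, hm4, hm5⟩ := hm
  set n := nd d m with hn
  have hn0 : 0 < n := by omega
  have hnR : (0 : ℝ) < n := by exact_mod_cast hn0
  set A : ℕ := n / (2 * d) with hA
  set A' : ℕ := n / (2 * L) with hA'
  -- the blocks
  obtain ⟨ι⟩ : Nonempty (({j : Fin d // j ≠ c} × Fin A) ⊕ (SL d N K c h × Fin A') ↪ Fin n) := by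
    refine Function.Embedding.nonempty_of_card_le ?_
    rw [Fintype.card_sum, Fintype.card_prod, Fintype.card_prod, Fintype.card_fin, Fintype.card_fin,
      Fintype.card_fin, ← hL]
    have e1 : Fintype.card {j : Fin d // j ≠ c} ≤ d := by
      refine (Fintype.card_subtype_le _).trans ?_
      simp
    have e2 : 2 * d * A ≤ n := Nat.mul_div_le _ _
    have e3 : 2 * L * A' ≤ n := Nat.mul_div_le _ _
    have e4 : Fintype.card {j : Fin d // j ≠ c} * A ≤ d * A := Nat.mul_le_mul_right _ e1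
    have e5 : 2 * d * A = 2 * (d * A) := by ring
    have e6 : 2 * L * A' = 2 * (L * A') := by ring
    omega
  set t : ℝ := 1 / (20 * (d : ℝ)) * (γ / n) with ht
  have ht0 : 0 ≤ t := by positivity
  have hts : t ≤ s' := by
    have e1 : 1 / (n : ℝ) ≤ s' := by
      rw [div_le_iff₀ hs'0] at hm5
      rw [div_le_iff₀ hnR]
      linarith
    have e2 : t = (γ / (20 * d)) * (1 / n) := by rw [ht]; field_simp
    have e3 : γ / (20 * d) ≤ 1 := by
      rw [div_le_one (by positivity)]
      linarith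
    rw [e2]
    calc γ / (20 * d) * (1 / n) ≤ 1 * (1 / n) := by gcongr
      _ ≤ s' := by rw [one_mul]; exact e1
  have hhi2 : ∀ k, hi k + t ≤ Real.pi / 2 + η' := fun k => by linarith [hhi1 k]
  have hAR : (n : ℝ) / (4 * d) ≤ A := by
    have e1 : n < 2 * d * (A + 1) := by
      rw [hA]
      have := Nat.lt_mul_div_succ n (show 0 < 2 * d by omega)
      exact this
    have e2 : (n : ℝ) < 2 * d * (A + 1) := by exact_mod_cast e1
    have e3 : (4 : ℝ) * d ≤ n := by exact_mod_cast hm4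
    rw [div_le_iff₀ (by positivity)]
    nlinarith
  -- the candidates and the big blocks
  set cand : {j : Fin d // j ≠ c} → Fin K → Finset (Fin n) := fun j k =>
    Finset.univ.image fun a : Fin A' => ι (Sum.inr (Sum.inr (Sum.inr (Sum.inr (j, k))), a)) with hcand
  set I : {j : Fin d // j ≠ c} → Finset (Fin n) := fun j =>
    Finset.univ.image fun b : Fin A => ι (Sum.inl (j, b)) with hI
  have hIcard : ∀ j, (I j).card = A := by
    intro j
    simp only [hI]
    rw [Finset.card_image_of_injective, Finset.card_univ, Fintype.card_fin]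
    intro b b' hbb
    have := ι.injective hbb
    simpa using this
  have hdisj : ∀ j k, ∀ i ∈ cand j k, i ∉ I j := by
    intro j k i hi1 hi2
    obtain ⟨a, -, rfl⟩ := Finset.mem_image.1 hi1
    obtain ⟨b, -, hb⟩ := Finset.mem_image.1 hi2
    have := ι.injective hb
    simp at this
  -- the bad events
  set B1 : Set (Fin n → ℝ) := ⋃ i, {θ | θ i ∈ (Ioo 0 Real.pi)ᶜ} with hB1
  set B2 : Set (Fin n → ℝ) := ⋃ i, {θ | θ i ∈ Ioi (Real.pi - γ / n)} with hB2
  set B3 : Set (Fin n → ℝ) := {θ | ∀ i ∈ Finset.univ, θ i ∈ Iic (Real.pi - c1)} with hB3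
  set B4 : Set (Fin n → ℝ) := ⋃ s : SL d N K c h,
    {θ | ∀ i ∈ Finset.univ.image (fun a : Fin A' => ι (Sum.inr (s, a))),
      θ i ∈ (wn c h uu ω η' lo hi s)ᶜ} with hB4
  set B5 : Set (Fin n → ℝ) := ⋃ j : {j : Fin d // j ≠ c},
    ({θ | ∀ k, ∃ i ∈ cand j k, θ i ∈ Ioo (lo k) (hi k)} ∩ {θ |
      ∀ k, ∀ i ∈ cand j k, θ i ∈ Ioo (lo k) (hi k) → ∀ l ∈ I j, θ l ∉ Ioo (θ i) (θ i + t)}) with hB5
  set B6 : Set (Fin n → ℝ) := {θ | (n : ℝ) / (4 * d) ≤
    ((Finset.univ.filter fun i => θ i ∈ (Icc ε (Real.pi - ε))ᶜ).card : ℝ)} with hB6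
  set B7 : Set (Fin n → ℝ) := {θ | (n : ℝ) / 4 ≤
    ((Finset.univ.filter fun i => θ i ∈ Icc (Real.pi / 2 - γ / 8) (Real.pi / 2 + γ / 8)).card :
      ℝ)} with hB7
  have hsub : (Rea d m n)ᶜ ⊆ B1 ∪ (B2 ∪ (B3 ∪ (B4 ∪ (B5 ∪ (B6 ∪ B7))))) := by
    intro θ hθ
    by_contra hgood
    simp only [mem_union, not_or] at hgood
    obtain ⟨b1, b2, b3, b4, b5, b6, b7⟩ := hgood
    refine hθ ?_
    have g0 : ∀ i, 0 < θ i ∧ θ i < Real.pi := by
      intro i
      by_contra hi
      exact b1 (mem_iUnion.2 ⟨i, hi⟩)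
    have g1 : ∀ i, θ i ≤ Real.pi - γ / n := by
      intro i
      by_contra hi
      exact b2 (mem_iUnion.2 ⟨i, not_le.1 hi⟩)
    have g2 : ∃ i, Real.pi - c1 < θ i := by
      by_contra hi
      push Not at hi
      exact b3 fun i _ => hi i
    have g3 : ∀ s : SL d N K c h, ∃ a, θ (ι (Sum.inr (s, a))) ∈ wn c h uu ω η' lo hi s := by
      intro s
      by_contra hi
      push Not at hi
      refine b4 (mem_iUnion.2 ⟨s, fun i hi2 => ?_⟩)
      obtain ⟨a, -, rfl⟩ := Finset.mem_image.1 hi2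
      exact hi a
    have g4 : ∀ j : {j : Fin d // j ≠ c}, ∃ k a b,
        θ (ι (Sum.inr (Sum.inr (Sum.inr (Sum.inr (j, k))), a))) ∈ Ioo (lo k) (hi k) ∧
        θ (ι (Sum.inl (j, b))) ∈ Ioo (θ (ι (Sum.inr (Sum.inr (Sum.inr (Sum.inr (j, k))), a))))
          (θ (ι (Sum.inr (Sum.inr (Sum.inr (Sum.inr (j, k))), a))) + t) := by
      intro j
      by_contra hi
      push Not at hi
      refine b5 (mem_iUnion.2 ⟨j, ?_, ?_⟩)
      · intro k
        obtain ⟨a, ha⟩ := g3 (Sum.inr (Sum.inr (Sum.inr (j, k))))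
        exact ⟨_, Finset.mem_image_of_mem _ (Finset.mem_univ a), ha⟩
      · intro k i hi1 hi2 l hl
        obtain ⟨a, -, rfl⟩ := Finset.mem_image.1 hi1
        obtain ⟨b, -, rfl⟩ := Finset.mem_image.1 hl
        exact hi k a b hi2
    exact good_real F (min_le_left _ _) hη'2 hc'1 hu ι hlo1 hhi2 ht0 le_rfl hγ hn hm0 hm3 rfl hhc
      ((min_le_left _ _).trans (min_le_left _ _)) hc11 hc1c g0 g1 g2 g3 g4 (not_le.1 b6)
      (not_le.1 b7)
  -- the probabilities
  have p1 : PP n uni B1 = 0 := by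
    rw [hB1, measure_iUnion_null_iff]
    intro i
    have := pi_block (μ := uni) ({i} : Finset (Fin n)) (Ioo 0 Real.pi)ᶜ
    simp only [Finset.mem_singleton, forall_eq, Finset.card_singleton, pow_one] at this
    rw [this, uni_compl]
  have p2 : PP n uni B2 ≤ ENNReal.ofReal γ := by
    have e0 : γ / n ≤ 1 := by
      rw [div_le_one hnR]
      have : (1 : ℝ) ≤ n := by exact_mod_cast hn0
      linarith
    have e1 : ∀ i : Fin n, PP n uni {θ | θ i ∈ Ioi (Real.pi - γ / n)} ≤
        ENNReal.ofReal (γ / n / Real.pi) := by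
      intro i
      have := pi_block (μ := uni) ({i} : Finset (Fin n)) (Ioi (Real.pi - γ / n))
      simp only [Finset.mem_singleton, forall_eq, Finset.card_singleton, pow_one] at this
      rw [this]
      exact uni_top e0
    calc PP n uni B2 ≤ ∑ i : Fin n, PP n uni {θ | θ i ∈ Ioi (Real.pi - γ / n)} := by
          rw [hB2]
          exact measure_iUnion_fintype_le _ _
      _ ≤ ∑ i : Fin n, ENNReal.ofReal (γ / n / Real.pi) := Finset.sum_le_sum fun i _ => e1 i
      _ = ENNReal.ofReal (γ / Real.pi) := by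
          rw [Finset.sum_const, Finset.card_univ, Fintype.card_fin, nsmul_eq_mul,
            ← ENNReal.ofReal_natCast, ← ENNReal.ofReal_mul hnR.le]
          congr 1
          field_simp
      _ ≤ ENNReal.ofReal γ := ENNReal.ofReal_le_ofReal (div_le_self hγ.le (by linarith))
  have p3 : PP n uni B3 ≤ ENNReal.ofReal γ := by
    rw [hB3, pi_block, Finset.card_univ, Fintype.card_fin]
    exact hm1
  have p4 : PP n uni B4 ≤ ENNReal.ofReal γ := by
    refine le_trans ?_ hm2
    rw [hB4]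
    refine (measure_iUnion_fintype_le _ _).trans (Finset.sum_le_sum fun s _ => ?_)
    rw [pi_block, Finset.card_image_of_injective, Finset.card_univ, Fintype.card_fin]
    intro a a' haa
    have := ι.injective haa
    simpa using this
  have p5 : PP n uni B5 ≤ ENNReal.ofReal γ := by
    have e1 : ∀ j, PP n uni ({θ | ∀ k, ∃ i ∈ cand j k, θ i ∈ Ioo (lo k) (hi k)} ∩ {θ |
        ∀ k, ∀ i ∈ cand j k, θ i ∈ Ioo (lo k) (hi k) → ∀ l ∈ I j, θ l ∉ Ioo (θ i) (θ i + t)}) ≤
        ENNReal.ofReal (Real.exp (-(K * (γ / (80 * d ^ 2 * Real.pi))))) := by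
      intro j
      refine (twin_prob (I j) (cand j) (hdisj j) lo hi ht0 (fun k => by linarith [hlo1 k])
        (fun k => by linarith [hhi2 k]) ?_).trans ?_
      · intro k l hkl
        rw [Set.disjoint_left]
        rintro x ⟨h1, h2⟩ ⟨h3, h4⟩
        simp only [hhi, hlo] at h1 h2 h3 h4
        rcases lt_or_gt_of_ne hkl with h5 | h5
        · have h6 : (k : ℝ) + 1 ≤ l := by exact_mod_cast h5
          nlinarith
        · have h6 : (l : ℝ) + 1 ≤ k := by exact_mod_cast h5
          nlinarith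
      · refine ENNReal.ofReal_le_ofReal (Real.exp_le_exp.2 (neg_le_neg ?_))
        rw [hIcard]
        rw [← arith1 (n := (n : ℝ)) (by linarith) hnR, ← ht]
        have e3 : (0 : ℝ) ≤ K * t := mul_nonneg hKR.le ht0
        exact div_le_div_of_nonneg_right (mul_le_mul_of_nonneg_left hAR e3) Real.pi_pos.le
    calc PP n uni B5 ≤ ∑ j : {j : Fin d // j ≠ c}, ENNReal.ofReal
          (Real.exp (-(K * (γ / (80 * d ^ 2 * Real.pi))))) := by
          rw [hB5]
          exact (measure_iUnion_fintype_le _ _).trans (Finset.sum_le_sum fun j _ => e1 j)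
      _ ≤ (d : ENNReal) * ENNReal.ofReal (Real.exp (-(K * (γ / (80 * d ^ 2 * Real.pi))))) := by
          rw [Finset.sum_const, nsmul_eq_mul, Finset.card_univ]
          gcongr
          exact_mod_cast (Fintype.card_subtype_le _).trans (by simp)
      _ ≤ ENNReal.ofReal γ := by
          rw [← ENNReal.ofReal_natCast, ← ENNReal.ofReal_mul (by positivity)]
          exact ENNReal.ofReal_le_ofReal hK
  have p6 : PP n uni B6 ≤ ENNReal.ofReal γ := by
    refine (markov (μ := uni) _ measurableSet_Icc.compl (by positivity)).trans ?_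
    calc _ ≤ ENNReal.ofReal (n / (n / (4 * d))) * ENNReal.ofReal (2 * ε / Real.pi) := by
          gcongr
          exact uni_ends hε0.le (by linarith)
      _ = ENNReal.ofReal (γ / Real.pi) := by
          rw [← ENNReal.ofReal_mul (by positivity)]
          congr 1
          rw [hε]
          field_simp
          ring
      _ ≤ ENNReal.ofReal γ := ENNReal.ofReal_le_ofReal (div_le_self hγ.le (by linarith))
  have p7 : PP n uni B7 ≤ ENNReal.ofReal γ := by
    refine (markov (μ := uni) _ measurableSet_Icc (by positivity)).trans ?_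
    calc _ ≤ ENNReal.ofReal (n / (n / 4)) * ENNReal.ofReal (2 * (γ / 8) / Real.pi) := by
          gcongr
          exact uni_mid
      _ = ENNReal.ofReal (γ / Real.pi) := by
          rw [← ENNReal.ofReal_mul (by positivity)]
          congr 1
          field_simp
          ring
      _ ≤ ENNReal.ofReal γ := ENNReal.ofReal_le_ofReal (div_le_self hγ.le (by linarith))
  calc PP n uni (Rea d m n)ᶜ ≤ PP n uni (B1 ∪ (B2 ∪ (B3 ∪ (B4 ∪ (B5 ∪ (B6 ∪ B7)))))) :=
        measure_mono hsub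
    _ ≤ PP n uni B1 + (PP n uni B2 + (PP n uni B3 + (PP n uni B4 + (PP n uni B5 +
        (PP n uni B6 + PP n uni B7))))) := by
        refine (measure_union_le _ _).trans ?_
        gcongr
        refine (measure_union_le _ _).trans ?_
        gcongr
        refine (measure_union_le _ _).trans ?_
        gcongr
        refine (measure_union_le _ _).trans ?_
        gcongr
        refine (measure_union_le _ _).trans ?_
        gcongr
        exact measure_union_le _ _
    _ ≤ 0 + (ENNReal.ofReal γ + (ENNReal.ofReal γ + (ENNReal.ofReal γ + (ENNReal.ofReal γ +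
        (ENNReal.ofReal γ + ENNReal.ofReal γ))))) := by
        rw [p1]
        gcongr
    _ = 6 * ENNReal.ofReal γ := by ring

end Pool.Agent.Helper54_Angles
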